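import Mathlib
import Pool.Agent.H394.LieStm

/-!
# LIE: alternating shuffle counts and the core combinatorial argument
-/

set_option autoImplicit false

namespace Pool.Agent.H551.LieB

open Finset Pool.Agent.H394.LieB

section cntpart

variable {K : Type} [Field K]

theorem altern_cons {h : List ℕ → K} (ha : Altern h) (x : ℕ) : Altern (fun w => h (x :: w)) := by
  intro l₁ l₂ y z
  exact ha (x :: l₁) l₂ y z

/-- move a letter past a word -/
theorem move {h : List ℕ → K} (ha : Altern h) (y : ℕ) : ∀ (u l₁ l₂ : List ℕ),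
    h (l₁ ++ y :: (u ++ l₂)) = (-1) ^ u.length * h (l₁ ++ (u ++ y :: l₂)) := by
  intro u
  induction u with
  | nil => intro l₁ l₂; simp
  | cons z u ih =>
    intro l₁ l₂
    have h1 := ha l₁ (u ++ l₂) y z
    have h2 := ih (l₁ ++ [z]) l₂
    simp only [List.append_assoc, List.cons_append, List.nil_append] at h1 h2 ⊢
    rw [h2] at h1
    rw [List.length_cons, pow_succ]
    linear_combination h1

theorem shsum_alt : ∀ (u v : List ℕ) (h : List ℕ → K), Altern h →
    shsum h u v = (cnt u.length v.length : K) * h (u ++ v) := by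
  intro u
  induction u with
  | nil => intro v h _; simp [cnt]
  | cons x u ihu =>
    intro v
    induction v with
    | nil => intro h _; simp [cnt]
    | cons y v ihv =>
      intro h ha
      rw [shsum_cons_cons, ihu (y :: v) _ (altern_cons ha x), ihv _ (altern_cons ha y)]
      have h1 := move ha y (x :: u) [] v
      simp only [List.nil_append, List.cons_append, List.length_cons] at h1 ⊢
      rw [h1, cnt]
      push_cast
      ring

theorem cnt_rows (m : ℕ) : cnt 1 (2 * m) = 1 ∧ cnt 1 (2 * m + 1) = 0 ∧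
    cnt 2 (2 * m) = m + 1 ∧ cnt 2 (2 * m + 1) = m + 1 ∧
    cnt 3 (2 * m) = m + 1 ∧ cnt 3 (2 * m + 1) = 0 ∧
    2 * cnt 4 (2 * m) = (m + 1) * (m + 2) ∧ 2 * cnt 4 (2 * m + 1) = (m + 1) * (m + 2) := by
  have e1 : ∀ j, cnt 1 (j + 1) = 1 - cnt 1 j := by
    intro j
    rw [cnt, cnt]
    ring
  have e2 : ∀ j, cnt 2 (j + 1) = cnt 1 (j + 1) + cnt 2 j := by
    intro j
    rw [cnt]
    ring
  have e3 : ∀ j, cnt 3 (j + 1) = cnt 2 (j + 1) - cnt 3 j := by
    intro j
    rw [cnt]
    ring
  have e4 : ∀ j, cnt 4 (j + 1) = cnt 3 (j + 1) + cnt 4 j := by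
    intro j
    rw [cnt]
    ring
  have key : ∀ m : ℕ, cnt 1 (2 * m) = 1 → cnt 2 (2 * m) = m + 1 → cnt 3 (2 * m) = m + 1 →
      2 * cnt 4 (2 * m) = (m + 1) * (m + 2) →
      cnt 1 (2 * m + 1) = 0 ∧ cnt 2 (2 * m + 1) = m + 1 ∧ cnt 3 (2 * m + 1) = 0 ∧
      2 * cnt 4 (2 * m + 1) = (m + 1) * (m + 2) := by
    intro m h1 h2 h3 h4
    have a1 := e1 (2 * m)
    have a2 := e2 (2 * m)
    have a3 := e3 (2 * m)
    have a4 := e4 (2 * m)
    rw [h1] at a1
    rw [a1, h2] at a2
    rw [a2, h3] at a3
    rw [a3] at a4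
    refine ⟨by rw [a1]; ring, by rw [a2]; ring, by rw [a3]; ring, ?_⟩
    rw [a4]
    linarith
  induction m with
  | zero =>
    have z1 : cnt 1 (2 * 0) = 1 := by simp [cnt]
    have z2 : cnt 2 (2 * 0) = ((0 : ℕ) : ℤ) + 1 := by simp [cnt]
    have z3 : cnt 3 (2 * 0) = ((0 : ℕ) : ℤ) + 1 := by simp [cnt]
    have z4 : 2 * cnt 4 (2 * 0) = (((0 : ℕ) : ℤ) + 1) * (((0 : ℕ) : ℤ) + 2) := by simp [cnt]
    obtain ⟨b1, b2, b3, b4⟩ := key 0 z1 z2 z3 z4
    exact ⟨z1, b1, z2, b2, z3, b3, z4, b4⟩
  | succ m ih =>
    obtain ⟨-, h1, -, h2, -, h3, -, h4⟩ := ih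
    have hm : 2 * (m + 1) = (2 * m + 1) + 1 := by ring
    have z1 : cnt 1 (2 * (m + 1)) = 1 := by rw [hm, e1, h1]; ring
    have z2 : cnt 2 (2 * (m + 1)) = ((m + 1 : ℕ) : ℤ) + 1 := by
      rw [hm, e2, h2, ← hm, z1]
      push_cast
      ring
    have z3 : cnt 3 (2 * (m + 1)) = ((m + 1 : ℕ) : ℤ) + 1 := by
      rw [hm, e3, h3, ← hm, z2]
      ring
    have z4 : 2 * cnt 4 (2 * (m + 1)) = (((m + 1 : ℕ) : ℤ) + 1) * (((m + 1 : ℕ) : ℤ) + 2) := by
      rw [hm, e4, mul_add, h4, ← hm, z3]
      push_cast
      ring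
    obtain ⟨b1, b2, b3, b4⟩ := key (m + 1) z1 z2 z3 z4
    exact ⟨z1, b1, z2, b2, z3, b3, z4, b4⟩

theorem t_CNT : S_CNT := by
  refine ⟨fun K _ h ha u v => shsum_alt u v h ha, fun m => (cnt_rows m).2.2.1,
    fun m => (cnt_rows m).2.2.2.2.2.2.1⟩

end cntpart

section core

variable {K : Type} [Field K]

/-- the hypotheses -/
structure Hy (m : ℕ) (c : List ℕ → K) : Prop where
  len : ∀ w : List ℕ, w.length ≠ 2 * m + 8 → c w = 0
  rot : ∀ A B : List ℕ, c (A ++ B) = c (B ++ A)
  kk : ∀ (u v : ℕ) (A B : List ℕ), c (u :: (A ++ v :: B)) =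
      (-1) ^ B.length * shsum (fun w => c (u :: (w ++ [v]))) A B.reverse
  alt : ∀ a b u v : ℕ, Altern (hh c a b u v)

variable {m : ℕ} {c : List ℕ → K}

/-- all insertions of `a`, `b` -/
def FF (c : List ℕ → K) (a b u v : ℕ) (w' w'' : List ℕ) : K :=
  shsum (fun A => c (u :: (A ++ v :: w''))) w' [a, b] +
  shsum (fun A => c (u :: (A ++ v :: w''))) w' [b, a]

theorem Hy.hh_eq (h : Hy m c) (a b u v : ℕ) (w : List ℕ) : hh c a b u v w =
    shsum (fun w => c (u :: (w ++ [v]))) w [b, a] +
    shsum (fun w => c (u :: (w ++ [v]))) w [a, b] := by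
  unfold hh
  have h1 := h.kk u v w [a, b]
  have h2 := h.kk u v w [b, a]
  simp only [List.reverse_cons, List.reverse_nil, List.nil_append, List.cons_append,
    List.length_cons, List.length_nil] at h1 h2
  rw [h1, h2]
  norm_num

theorem Hy.FF_eq (h : Hy m c) (a b u v : ℕ) (w' w'' : List ℕ) : FF c a b u v w' w'' =
    (-1) ^ w''.length * shsum (hh c a b u v) w' w''.reverse := by
  unfold FF
  have e1 : (fun A => c (u :: (A ++ v :: w''))) = fun A => (-1) ^ w''.length *
      shsum (fun w => c (u :: (w ++ [v]))) A w''.reverse := by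
    funext A
    exact h.kk u v A w''
  have e2 : hh c a b u v = fun w => shsum (fun w => c (u :: (w ++ [v]))) w [b, a] +
      shsum (fun w => c (u :: (w ++ [v]))) w [a, b] := by
    funext w
    exact h.hh_eq a b u v w
  have e3 : ∀ (g : List ℕ → K) (X B C : List ℕ),
      shsum (fun A => shsum g A C) X B = shsum (fun A => shsum g A B) X C := by
    intro g X B C
    rw [shsum_assoc, shsum_comm _ B C, ← shsum_assoc]
  rw [e1, e2, shsum_mul, shsum_mul, shsum_add, e3, e3 _ w' [b, a]]
  ring

theorem Hy.F_eval (h : Hy m c) (a b u v : ℕ) (w' w'' : List ℕ) : FF c a b u v w' w'' =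
    (-1) ^ w''.length * ((cnt w'.length w''.length : K) *
      hh c a b u v (w' ++ w''.reverse)) := by
  rw [h.FF_eq, shsum_alt _ _ _ (h.alt a b u v), List.length_reverse]

theorem Hy.Z (h : Hy m c) (p a x q r b y s : ℕ) (t : List ℕ) :
    c (p :: a :: x :: q :: r :: b :: y :: s :: t) + c (p :: x :: a :: q :: r :: b :: y :: s :: t) +
    c (p :: a :: x :: q :: r :: y :: b :: s :: t) +
    c (p :: x :: a :: q :: r :: y :: b :: s :: t) = 0 := by
  have h1 := h.alt b y s r (t ++ [p]) [q] a x
  unfold hh at h1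
  have r1 := h.rot [p, a, x, q, r, b, y] (s :: t)
  have r2 := h.rot [p, x, a, q, r, b, y] (s :: t)
  have r3 := h.rot [p, a, x, q, r, y, b] (s :: t)
  have r4 := h.rot [p, x, a, q, r, y, b] (s :: t)
  simp only [List.cons_append, List.nil_append, List.append_assoc] at h1 r1 r2 r3 r4
  rw [r1, r2, r3, r4]
  linear_combination h1

theorem Hy.incl (h : Hy m c) (p a x q r b y s : ℕ) (t : List ℕ) :
    FF c a b p s [x, q, r, y] t - FF c a b p r [x, q] (y :: s :: t) -
      FF c a b q s [r, y] (t ++ [p, x]) + FF c a b q r [] (y :: s :: (t ++ [p, x])) = 0 := by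
  have z1 := h.Z p a x q r b y s t
  have z2 := h.Z p b x q r a y s t
  have e1 : (fun A => c (q :: (A ++ s :: (t ++ [p, x])))) =
      fun A => c (p :: x :: q :: (A ++ s :: t)) := by
    funext A
    have := h.rot (q :: (A ++ s :: t)) [p, x]
    simp only [List.cons_append, List.nil_append, List.append_assoc] at this
    exact this
  have e2 : (fun A => c (q :: (A ++ r :: y :: s :: (t ++ [p, x])))) =
      fun A => c (p :: x :: q :: (A ++ r :: y :: s :: t)) := by
    funext A
    have := h.rot (q :: (A ++ r :: y :: s :: t)) [p, x]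
    simp only [List.cons_append, List.nil_append, List.append_assoc] at this
    exact this
  unfold FF
  rw [e1, e2]
  simp only [shsum_cons_cons, shsum_nil_left, shsum_nil_right, List.cons_append, List.nil_append]
  linear_combination z1 + z2

theorem sw {g : List ℕ → K} (ha : Altern g) (l₁ l₂ : List ℕ) (x y : ℕ) :
    g (l₁ ++ x :: y :: l₂) = - g (l₁ ++ y :: x :: l₂) :=
  eq_neg_of_add_eq_zero_left (ha l₁ l₂ x y)

theorem Hy.R1 (h : Hy m c) (a b p q r s x y : ℕ) (T : List ℕ) (hT : T.length = 2 * m) :
    (cnt 4 (2 * m) : K) * hh c a b p s (q :: r :: x :: y :: T) -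
      ((m : K) + 2) * hh c a b p r (q :: s :: x :: y :: T) -
      ((m : K) + 2) * hh c a b q s (p :: r :: x :: y :: T) +
      hh c a b q r (p :: s :: x :: y :: T) = 0 := by
  have hev : ∀ k : ℕ, ((-1 : K)) ^ (2 * k) = 1 := fun k => by rw [pow_mul]; norm_num
  have hN : (cnt 2 (2 * m + 1 + 1) : K) = (m : K) + 2 := by
    have h1 := (cnt_rows (m + 1)).2.2.1
    have h2 : 2 * (m + 1) = 2 * m + 1 + 1 := by ring
    rw [h2] at h1
    rw [h1]
    push_cast
    ring
  have hi := h.incl p a x q r b y s T.reverse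
  rw [h.F_eval, h.F_eval, h.F_eval, h.F_eval] at hi
  have hpow : ((-1 : K)) ^ (2 * m + 1 + 1) = 1 := by
    have := hev (m + 1)
    rwa [show 2 * (m + 1) = 2 * m + 1 + 1 by ring] at this
  have hpow4 : ((-1 : K)) ^ (2 * m + 1 + 1 + 1 + 1) = 1 := by
    have := hev (m + 2)
    rwa [show 2 * (m + 2) = 2 * m + 1 + 1 + 1 + 1 by ring] at this
  have hc0 : ∀ k, (cnt 0 k : K) = 1 := fun k => by rw [cnt]; norm_num
  simp only [List.length_reverse, List.length_cons, List.length_append, List.length_nil,
    List.reverse_reverse, List.reverse_cons, List.reverse_append, List.reverse_nil,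
    List.nil_append, List.cons_append, List.append_assoc, hT] at hi
  have n2 : 2 * m + (0 + 1 + 1) = 2 * m + 1 + 1 := by ring
  have n3 : (0 + 1 + 1 : ℕ) = 2 := rfl
  have n4 : (0 + 1 + 1 + 1 + 1 : ℕ) = 4 := rfl
  rw [n2, n3, n4, hev, hpow, hpow4, hN, hc0] at hi
  -- rearrangements
  have a1 := h.alt a b p s
  have a2 := h.alt a b p r
  have a3 := h.alt a b q s
  have a4 := h.alt a b q r
  have e1 : hh c a b p s (x :: q :: r :: y :: T) = hh c a b p s (q :: r :: x :: y :: T) := by
    have h1 := sw a1 [] (r :: y :: T) x q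
    have h2 := sw a1 [q] (y :: T) x r
    simp only [List.nil_append, List.cons_append] at h1 h2
    rw [h1, h2, neg_neg]
  have mv : ∀ (g : List ℕ → K), Altern g → ∀ (l : List ℕ),
      g (l ++ (T ++ [s, y])) = g (l ++ s :: y :: T) := by
    intro g hg l
    have h1 := move hg s T l [y]
    have h2 := move hg y T (l ++ [s]) []
    simp only [List.append_assoc, List.cons_append, List.nil_append, List.append_nil] at h1 h2
    rw [hT, hev, one_mul] at h1 h2
    rw [h2, h1]
  have e2 : hh c a b p r (x :: q :: (T ++ [s, y])) = hh c a b p r (q :: s :: x :: y :: T) := by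
    have h0 := mv _ a2 [x, q]
    have h1 := sw a2 [] (s :: y :: T) x q
    have h2 := sw a2 [q] (y :: T) x s
    simp only [List.nil_append, List.cons_append] at h0 h1 h2
    rw [h0, h1, h2, neg_neg]
  have e3 : hh c a b q s (r :: y :: x :: p :: T) = hh c a b q s (p :: r :: x :: y :: T) := by
    have h1 := sw a3 [r, y] T x p
    have h2 := sw a3 [r] (x :: T) y p
    have h3 := sw a3 [] (y :: x :: T) r p
    have h4 := sw a3 [p, r] T y x
    simp only [List.nil_append, List.cons_append] at h1 h2 h3 h4
    rw [h1, h2, h3, h4]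
    ring
  have e4 : hh c a b q r (x :: p :: (T ++ [s, y])) = hh c a b q r (p :: s :: x :: y :: T) := by
    have h0 := mv _ a4 [x, p]
    have h1 := sw a4 [] (s :: y :: T) x p
    have h2 := sw a4 [p] (y :: T) x s
    simp only [List.nil_append, List.cons_append] at h0 h1 h2
    rw [h0, h1, h2, neg_neg]
  rw [e1, e2, e3, e4] at hi
  linear_combination hi

theorem Hy.alpha [CharZero K] (h : Hy m c) (a b p q r s x y : ℕ) (T : List ℕ)
    (hT : T.length = 2 * m) : hh c a b p r (q :: s :: x :: y :: T) = 0 := by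
  have r1 := h.R1 a b p q r s x y T hT
  have r2 := h.R1 a b p q s r x y T hT
  have r3 := h.R1 a b q p r s x y T hT
  have r4 := h.R1 a b q p s r x y T hT
  have hC : 2 * (cnt 4 (2 * m) : K) = ((m : K) + 1) * ((m : K) + 2) := by
    have h1 := (cnt_rows m).2.2.2.2.2.2.1
    exact_mod_cast congrArg (fun z : ℤ => (z : K)) h1
  by_cases hm : m = 0
  · subst hm
    have hT0 : T = [] := by
      rw [← List.length_eq_zero_iff]
      omega
    subst hT0
    have hC1 : (cnt 4 (2 * 0) : K) = 1 := by
      rw [Nat.cast_zero] at hC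
      have : 2 * ((cnt 4 (2 * 0) : K) - 1) = 0 := by linear_combination hC
      rcases mul_eq_zero.1 this with h1 | h1
      · exact absurd h1 two_ne_zero
      · exact sub_eq_zero.1 h1
    have key : ∀ p q r s x y : ℕ,
        hh c a b p r [q, s, x, y] = - hh c a b q s [p, r, x, y] := by
      intro p q r s x y
      have r1 := h.R1 a b p q r s x y [] hT
      have r2 := h.R1 a b p q s r x y [] hT
      rw [hC1, Nat.cast_zero] at r1 r2
      have h3 : (3 : K) * (hh c a b p r [q, s, x, y] + hh c a b q s [p, r, x, y]) = 0 := by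
        linear_combination (-2 : K) * r1 - r2
      rcases mul_eq_zero.1 h3 with h1 | h1
      · exact absurd h1 three_ne_zero
      · exact eq_neg_of_add_eq_zero_left h1
    have ev : ∀ u v i j k l : ℕ,
        hh c a b u v [i, j, k, l] = hh c a b u v [k, l, i, j] := by
      intro u v i j k l
      have ha := h.alt a b u v
      have h1 := sw ha [i] [l] j k
      have h2 := sw ha [] [j, l] i k
      have h3 := sw ha [k, i] [] j l
      have h4 := sw ha [k] [j] i l
      simp only [List.nil_append, List.cons_append] at h1 h2 h3 h4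
      rw [h1, h2, h3, h4]
      ring
    have k1 := key p q r s x y
    have k2 := ev q s p r x y
    have k3 := key q x s y p r
    have k4 := ev x y q s p r
    have k5 := key x p y r q s
    have k6 := ev p r x y q s
    have h2 : (2 : K) * hh c a b p r [q, s, x, y] = 0 := by
      rw [k2, k3, k4, k5, k6] at k1
      linear_combination k1
    rcases mul_eq_zero.1 h2 with h1 | h1
    · exact absurd h1 two_ne_zero
    · exact h1
  · have hmz : ((m : K)) ≠ 0 := Nat.cast_ne_zero.2 hm
    set C := (cnt 4 (2 * m) : K) with hCdef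
    generalize hh c a b p r (q :: s :: x :: y :: T) = α at r1 r2 r3 r4 ⊢
    generalize hh c a b p s (q :: r :: x :: y :: T) = β at r1 r2 r3 r4
    generalize hh c a b q r (p :: s :: x :: y :: T) = γ at r1 r2 r3 r4
    generalize hh c a b q s (p :: r :: x :: y :: T) = δ at r1 r2 r3 r4
    have hm3 : ((m : K) + 3) ≠ 0 := by exact_mod_cast Nat.succ_ne_zero (m + 2)
    have hC1 : C - 1 ≠ 0 := by
      intro h0
      have h1 : (m : K) * ((m : K) + 3) = 0 := by linear_combination 2 * h0 - hC
      rcases mul_eq_zero.1 h1 with h1 | h1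
      · exact hmz h1
      · exact hm3 h1
    have b1 : β = γ := by
      have : (C - 1) * (β - γ) = 0 := by linear_combination r1 - r4
      rcases mul_eq_zero.1 this with h1 | h1
      · exact absurd h1 hC1
      · exact sub_eq_zero.1 h1
    have b2 : α = δ := by
      have : (C - 1) * (α - δ) = 0 := by linear_combination r2 - r3
      rcases mul_eq_zero.1 this with h1 | h1
      · exact absurd h1 hC1
      · exact sub_eq_zero.1 h1
    subst b1
    subst b2
    -- `(C + 1) β = 2 N α`, `(C + 1) α = 2 N β`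
    have c1 : (C + 1) * β = 2 * ((m : K) + 2) * α := by linear_combination r1
    have c2 : (C + 1) * α = 2 * ((m : K) + 2) * β := by linear_combination r2
    have c3 : ((C + 1) - 2 * ((m : K) + 2)) * (((C + 1) + 2 * ((m : K) + 2)) * α) = 0 := by
      linear_combination (C + 1) * c2 + 2 * ((m : K) + 2) * c1
    have hz1 : (C + 1) - 2 * ((m : K) + 2) ≠ 0 := by
      intro h0
      have h1 : (m : K) * (m : K) = (m : K) + 4 := by linear_combination 2 * h0 - hC
      have h2 : m * m = m + 4 := by exact_mod_cast h1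
      have h3 : m ≤ 3 := by nlinarith
      interval_cases m <;> omega
    have hz2 : (C + 1) + 2 * ((m : K) + 2) ≠ 0 := by
      intro h0
      have h1 : (m : K) * (m : K) + 7 * (m : K) + 12 = 0 := by linear_combination 2 * h0 - hC
      have h2 : m * m + 7 * m + 12 = 0 := by exact_mod_cast h1
      omega
    rcases mul_eq_zero.1 c3 with h1 | h1
    · exact absurd h1 hz1
    · rcases mul_eq_zero.1 h1 with h1 | h1
      · exact absurd h1 hz2
      · exact h1

theorem Hy.hh_zero [CharZero K] (h : Hy m c) (a b u v : ℕ) (w : List ℕ) :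
    hh c a b u v w = 0 := by
  by_cases hw : w.length = 2 * m + 4
  · match w, hw with
    | q :: s :: x :: y :: T, hw =>
      refine h.alpha a b u q v s x y T ?_
      simp only [List.length_cons] at hw
      omega
  · unfold hh
    rw [h.len, h.len, add_zero]
    · simp only [List.length_cons, List.length_append, List.length_nil]
      omega
    · simp only [List.length_cons, List.length_append, List.length_nil]
      omega

theorem Hy.altc [CharZero K] (h : Hy m c) : Altern c := by
  intro l₁ l₂ x y
  by_cases hl : (l₁ ++ x :: y :: l₂).length = 2 * m + 8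
  · have hl2 : (l₂ ++ l₁).length = 2 * m + 6 := by
      simp only [List.length_cons, List.length_append] at hl ⊢
      omega
    have r1 := h.rot (l₁ ++ [x, y]) l₂
    have r2 := h.rot (l₁ ++ [y, x]) l₂
    simp only [List.append_assoc, List.cons_append, List.nil_append] at r1 r2
    rw [r1, r2, ← List.append_assoc, ← List.append_assoc]
    generalize l₂ ++ l₁ = z at hl2
    cases z with
    | nil => simp at hl2
    | cons u z =>
      rcases List.eq_nil_or_concat z with hz | ⟨w, v, hz⟩
      · subst hz
        simp only [List.length_cons, List.length_nil] at hl2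
        omega
      · subst hz
        have h1 := h.hh_zero x y u v w
        unfold hh at h1
        simp only [List.concat_eq_append, List.append_assoc, List.cons_append,
          List.nil_append] at h1 ⊢
        exact h1
  · rw [h.len _ hl, h.len, add_zero]
    intro hl2
    apply hl
    rw [← hl2]
    simp only [List.length_cons, List.length_append]

end core

theorem t_CORE : S_CORE := by
  intro K _ _ m c h1 _ h2 h3 h4 w
  have h : Hy m c := ⟨h1, h2, h3, h4⟩
  by_cases hw : w.length = 2 * m + 8
  · cases w with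
    | nil => simp at hw
    | cons x w =>
      have ha := h.altc
      have e1 := move ha x w [] []
      have e2 := h2 [x] w
      simp only [List.nil_append, List.append_nil, List.cons_append] at e1 e2
      have hl : w.length = 2 * (m + 3) + 1 := by
        simp only [List.length_cons] at hw
        omega
      rw [hl, pow_succ, pow_mul] at e1
      have e3 : (2 : K) * c (x :: w) = 0 := by
        have h9 : ((-1 : K) ^ 2) ^ (m + 3) = 1 := by norm_num
        rw [h9] at e1
        linear_combination e1 + e2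
      rcases mul_eq_zero.1 e3 with h1 | h1
      · exact absurd h1 two_ne_zero
      · exact h1
  · exact h1 w hw

end Pool.Agent.H551.LieB
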