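import Pool.Agent.H194.Cube.Defs

/-!
CUBE PROFILE project (helper194): approximate stationarity `S_b` from `S_b1` and `S_b2`.
-/

set_option autoImplicit false

open MeasureTheory Set Filter Topology ProbabilityTheory
open scoped ContDiff ENNReal NNReal

namespace Pool.Agent.H551.CubeB

open Pool.Agent.H194.Cube

variable {n : ℕ}

theorem D_zero (j : Fin n) (x : Fin n → ℝ) : D (fun _ : Fin n → ℝ => (0 : ℝ)) j x = 0 := by
  unfold D
  rw [fderiv_fun_const]
  rfl

theorem abs_D_le (f : (Fin n → ℝ) → ℝ) (j : Fin n) (x : Fin n → ℝ) : |D f j x| ≤ gn f x := by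
  unfold gn
  apply Real.abs_le_sqrt
  exact Finset.single_le_sum (f := fun i => D f i x ^ 2) (fun i _ => sq_nonneg _)
    (Finset.mem_univ j)

theorem D_cont {f : (Fin n → ℝ) → ℝ} (hf : ContDiff ℝ 1 f) (j : Fin n) : Continuous (D f j) := by
  unfold D
  exact (hf.continuous_fderiv one_ne_zero).clm_apply continuous_const

theorem evn_mul {f g : (Fin n → ℝ) → ℝ} {i : Fin n} (hf : Evn f i) (hg : Evn g i) :
    Evn (fun x => f x * g x) i := by
  intro x
  show f _ * g _ = f x * g x
  rw [hf x, hg x]

theorem odd_mul {f g : (Fin n → ℝ) → ℝ} {i : Fin n} (hf : Odd' f i) (hg : Odd' g i) :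
    Evn (fun x => f x * g x) i := by
  intro x
  show f _ * g _ = f x * g x
  rw [hf x, hg x]
  ring

theorem per_mul {f g : (Fin n → ℝ) → ℝ} (hf : Per f) (hg : Per g) :
    Per (fun x => f x * g x) := by
  intro x i
  show f _ * g _ = f x * g x
  rw [hf x i, hg x i]

theorem D_mul {f g : (Fin n → ℝ) → ℝ} (hf : ContDiff ℝ 1 f) (hg : ContDiff ℝ 1 g) (i : Fin n)
    (x : Fin n → ℝ) : D (fun x => f x * g x) i x = D f i x * g x + f x * D g i x := by
  have h1 : DifferentiableAt ℝ f x := (hf.differentiable one_ne_zero) x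
  have h2 : DifferentiableAt ℝ g x := (hg.differentiable one_ne_zero) x
  unfold D
  rw [fderiv_fun_mul h1 h2]
  simp
  ring

/-- integration by parts on the cube -/
theorem parts (hA : HeatA) (hB : HeatB) (hD : HeatD) (hBox : BoxFacts) (hS : SymFacts) (σ : ℝ)
    (i : Fin n) {g y : (Fin n → ℝ) → ℝ} (hg : ContDiff ℝ 1 g) (hgs : Sym g)
    (hy : ContDiff ℝ 1 y) (hyp : Per y) (hyo : Odd' y i) (hye : ∀ j, j ≠ i → Evn y j) :
    ∫ x in Icc (0 : Fin n → ℝ) 1, g x * D (heat σ y) i x =
      - ∫ x in Icc (0 : Fin n → ℝ) 1, D (heat σ g) i x * y x := by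
  have h2 : (2 : ℝ) ^ n ≠ 0 := by positivity
  have hf : ContDiff ℝ 1 (heat σ g) := hB.smooth1 n σ g hg hgs.1
  have hfp : Per (heat σ g) := hA.per n σ g hgs.1
  have hfe : ∀ j, Evn (heat σ g) j := fun j => hA.evn n σ g j (hgs.2 j)
  have hDyc : Continuous (D y i) := D_cont hy i
  have hDyp : Per (D y i) := hS.per n y i hyp
  have hDye : ∀ j, Evn (D y i) j := by
    intro j
    by_cases hj : j = i
    · subst hj
      exact hS.odd_same n y j hy hyo
    · exact hS.evn_diff n y j i hj hy (hye j hj)
  -- the left side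
  have e1 : ∀ x, g x * D (heat σ y) i x = g x * heat σ (D y i) x := by
    intro x
    rw [hB.comm n σ y i x hy hyp]
  have hhc : Continuous (heat σ (D y i)) :=
    (hA.cont n (D y i) hDyc hDyp).comp (by fun_prop : Continuous fun x : Fin n → ℝ => (σ, x))
  have e2 := hBox.half n (fun x => g x * heat σ (D y i) x) (hg.continuous.mul hhc)
    (fun j => evn_mul (hgs.2 j) (hA.evn n σ _ j (hDye j)))
  have e3 := hD.adj n σ g (D y i) hg.continuous hgs.1 hDyc hDyp
  -- the right side
  have e4 : Continuous (fun x => D (heat σ g) i x * y x) := (D_cont hf i).mul hy.continuous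
  have e5 := hBox.half n (fun x => D (heat σ g) i x * y x) e4 (by
    intro j
    by_cases hj : j = i
    · subst hj
      exact odd_mul (hS.evn_same n _ j hf (hfe j)) hyo
    · exact evn_mul (hS.evn_diff n _ j i hj hf (hfe j)) (hye j hj))
  -- parts
  have e6 := hBox.div n (fun x => heat σ g x * y x) i (hf.mul hy) (per_mul hfp hyp)
  simp_rw [D_mul hf hy] at e6
  have hcomp : IsCompact (Icc (-1 : Fin n → ℝ) 1) := isCompact_Icc
  have e8 : Continuous (fun x => heat σ g x * D y i x) := hf.continuous.mul hDyc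
  rw [integral_add (e4.continuousOn.integrableOn_compact hcomp)
    (e8.continuousOn.integrableOn_compact hcomp)] at e6
  simp_rw [e1]
  have e7 : (2 : ℝ) ^ n * ∫ x in Icc (0 : Fin n → ℝ) 1, g x * heat σ (D y i) x =
      (2 : ℝ) ^ n * (- ∫ x in Icc (0 : Fin n → ℝ) 1, D (heat σ g) i x * y x) := by
    rw [← e2, ← e3, mul_neg, ← e5]
    linarith
  exact mul_left_cancel₀ h2 e7

/-- approximate stationarity of `heat σ g` -/
theorem s_b (h1 : S_b1) (h2 : S_b2) (hA : HeatA) (hB : HeatB) (hD : HeatD) (hBox : BoxFacts)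
    (hS : SymFacts) : S_b := by
  classical
  intro P H C lam hyp hP hH hC n K hn hK
  obtain ⟨A, hA0, hAb⟩ := h1 P H C lam hyp hP hH hC n K hn hK
  refine ⟨A, hA0, ?_⟩
  intro δ E g hδ hδ1 hnm σ i y hσ hy hyp hyo hye hyK
  have hg1 : ContDiff ℝ 1 g := hnm.smooth.of_le (by exact_mod_cast le_top)
  have hw : ContDiff ℝ 1 (heat σ y) := hB.smooth1 n σ y hy hyp
  set X : Fin n → (Fin n → ℝ) → ℝ := fun j => if j = i then heat σ y else fun _ => 0 with hX
  have hXi : X i = heat σ y := by rw [hX]; simp
  have hXj : ∀ j, j ≠ i → X j = fun _ => 0 := by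
    intro j hj
    rw [hX]
    simp [hj]
  have hb := hAb δ E g hδ hδ1 hnm X ?_ ?_ ?_ ?_
  · -- the two integrals
    have e1 : FV g X = fv g i (heat σ y) := by
      unfold FV fv
      congr 1
      funext x
      have h3 : ∑ j, D (X j) j x = D (heat σ y) i x := by
        rw [Finset.sum_eq_single i]
        · rw [hXi]
        · intro j _ hj
          rw [hXj j hj, D_zero]
        · intro h
          exact absurd (Finset.mem_univ i) h
      have h4 : ∑ a, ∑ j, D g a x * D g j x / gn g x * D (X a) j x =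
          ∑ j, D g i x * D g j x / gn g x * D (heat σ y) j x := by
        rw [Finset.sum_eq_single i]
        · rw [hXi]
        · intro a _ ha
          apply Finset.sum_eq_zero
          intro j _
          rw [hXj a ha, D_zero, mul_zero]
        · intro h
          exact absurd (Finset.mem_univ i) h
      rw [h3, h4]
    have e2 : ∫ x in Icc (0 : Fin n → ℝ) 1, g x * ∑ j, D (X j) j x =
        - ∫ x in Icc (0 : Fin n → ℝ) 1, D (heat σ g) i x * y x := by
      rw [← parts hA hB hD hBox hS σ i hg1 hnm.sym hy hyp hyo hye]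
      congr 1
      funext x
      congr 1
      rw [Finset.sum_eq_single i]
      · rw [hXi]
      · intro j _ hj
        rw [hXj j hj, D_zero]
      · intro h
        exact absurd (Finset.mem_univ i) h
    rw [e1, e2] at hb
    have hb2 := h2 n i σ K g y hσ hK.le hnm.smooth hnm.sym hy hyp hyo hye hyK
    have e3 : fv (heat σ g) i y + H * ∫ x in Icc (0 : Fin n → ℝ) 1, D (heat σ g) i x * y x =
        (fv g i (heat σ y) - H * - ∫ x in Icc (0 : Fin n → ℝ) 1, D (heat σ g) i x * y x) -
          (fv g i (heat σ y) - fv (heat σ g) i y) := by ring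
    rw [e3]
    exact (abs_sub _ _).trans (add_le_add hb hb2)
  · intro j
    by_cases hj : j = i
    · subst hj
      rw [hXi]
      exact hw
    · rw [hXj j hj]
      exact contDiff_const
  · intro j k x
    by_cases hj : j = i
    · subst hj
      rw [hXi, hB.comm n σ y k x hy hyp]
      exact hA.bound n σ K (D y k) x (D_cont hy k) (hS.per n y k hyp)
        fun z => (abs_D_le y k z).trans (hyK z)
    · rw [hXj j hj, D_zero, abs_zero]
      exact hK.le
  · intro j x hx
    by_cases hj : j = i
    · subst hj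
      rw [hXi]
      exact hS.odd_zero n _ j x (hA.per n σ y hyp) (hA.odd n σ y j hyo) (Or.inl hx)
    · rw [hXj j hj]
  · intro j x hx
    by_cases hj : j = i
    · subst hj
      rw [hXi]
      exact hS.odd_zero n _ j x (hA.per n σ y hyp) (hA.odd n σ y j hyo) (Or.inr hx)
    · rw [hXj j hj]

end Pool.Agent.H551.CubeB
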