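import Mathlib
import Pool.Agent.H979.GW.StmA

/-!
# GW CL: convergence of the truncated constants
-/

set_option autoImplicit false

open MeasureTheory ProbabilityTheory Filter Topology Set
open scoped ENNReal NNReal

namespace Pool.Agent.H551

open Pool.Agent.H979.GW

theorem tru_sq_le {L : ℝ} (hL : 0 ≤ L) (x : ℝ) : tru L x ^ 2 ≤ x ^ 2 := by
  unfold tru
  rw [sq_le_sq]
  rcases le_total L x with h | h
  · rw [min_eq_left h, max_eq_right (by linarith), abs_of_nonneg hL]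
    exact h.trans (le_abs_self x)
  · rw [min_eq_right h]
    rcases le_total (-L) x with h' | h'
    · rw [max_eq_right h']
    · rw [max_eq_left h', abs_neg, abs_of_nonneg hL]
      have := neg_le_abs x
      linarith

theorem tru_abs_le {L : ℝ} (hL : 0 ≤ L) (x : ℝ) : |tru L x| ≤ L := by
  unfold tru
  rw [abs_le]
  exact ⟨le_max_left _ _, max_le (by linarith) (min_le_left _ _)⟩

theorem tru_eq {L x : ℝ} (h : |x| ≤ L) : tru L x = x := by
  unfold tru
  rw [abs_le] at h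
  rw [min_eq_right h.2, max_eq_right h.1]

theorem tru_meas (L : ℝ) : Measurable (tru L) := by
  unfold tru
  exact measurable_const.max (measurable_const.min measurable_id)

theorem alg_bound {ι : Type} (s : Finset ι) (f : ι → ℝ) (t ρ : ℝ) (hρ : 0 < ρ) :
    (∑ c ∈ s, f c - ρ * t) ^ 2 / (ρ + (s.card : ℝ)) ≤ ∑ c ∈ s, f c ^ 2 + ρ * t ^ 2 := by
  have hd : (0 : ℝ) ≤ (s.card : ℝ) := Nat.cast_nonneg _
  rw [div_le_iff₀ (by linarith)]
  have h1 : (∑ c ∈ s, f c) ^ 2 ≤ (s.card : ℝ) * ∑ c ∈ s, f c ^ 2 := sq_sum_le_card_mul_sum_sq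
  have h2 : 0 ≤ ∑ c ∈ s, (f c + t) ^ 2 := Finset.sum_nonneg fun c _ => sq_nonneg _
  have h3 : ∑ c ∈ s, (f c + t) ^ 2 =
      ∑ c ∈ s, f c ^ 2 + 2 * t * ∑ c ∈ s, f c + (s.card : ℝ) * t ^ 2 := by
    have : ∀ c, (f c + t) ^ 2 = f c ^ 2 + 2 * t * f c + t ^ 2 := fun c => by ring
    simp_rw [this]
    rw [Finset.sum_add_distrib, Finset.sum_add_distrib, ← Finset.mul_sum, Finset.sum_const,
      nsmul_eq_mul]
  rw [h3] at h2
  nlinarith [mul_nonneg hρ.le h2]

theorem gw_cl {Q : Type} [Fintype Q] [DecidableEq Q] (q : Q → Measure (Q → ℕ))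
    [∀ a, IsProbabilityMeasure (q a)] {ρ : ℝ} {e m : Q → ℝ} {C r : ℝ} (hy : Hyp q ρ e m C r)
    (hSH : S_SH q) (hM1 : S_M1 q) (hW : S_W q ρ e m) : S_CL q ρ e m := by
  obtain ⟨hWm, hW0, hW2, -, -, hrec, -⟩ := hW
  have hρ : 0 < ρ := lt_trans one_pos hy.rho
  have hρ0 : ρ ≠ 0 := hρ.ne'
  -- the degree
  have hTT1 : ∀ (b : Q) (ω : Env Q), TT (fun _ _ => (1 : ℝ)) b ω = ((cht ω []).card : ℝ) := by
    intro b ω
    simp [TT, cht]
  have hd := hM1.2 (fun _ _ => (1 : ℝ)) (fun b => integrable_const _)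
  have hdI : ∀ b, Integrable (fun ω : Env Q => ((cht ω []).card : ℝ)) (law q b) := by
    intro b
    exact (hd b).1.congr (Eventually.of_forall fun ω => hTT1 b ω)
  have hdE : ∀ b, ∫ ω, ((cht ω []).card : ℝ) ∂(law q b) = ∑ b', mA q b b' := by
    intro b
    have h1 := (hd b).2
    simp only [hTT1, integral_const, smul_eq_mul, mul_one, probReal_univ] at h1
    exact h1
  have hms : ∀ g : Q → ℝ, ∑ b, m b * ∑ b', mA q b b' * g b' = ρ * ∑ b, m b * g b := by
    intro g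
    simp_rw [Finset.mul_sum]
    rw [Finset.sum_comm]
    refine Finset.sum_congr rfl fun b' _ => ?_
    have h1 := hy.pf.left b'
    calc ∑ b, m b * (mA q b b' * g b') = (∑ b, m b * mA q b b') * g b' := by
          rw [Finset.sum_mul]
          exact Finset.sum_congr rfl fun b _ => by ring
      _ = ρ * (m b' * g b') := by rw [h1]; ring
  have hden : ∑ b, m b * ∫ ω, (ρ + ((cht ω []).card : ℝ)) ∂(law q b) = 2 * ρ * ∑ b, m b := by
    have h1 : ∀ b, ∫ ω, (ρ + ((cht ω []).card : ℝ)) ∂(law q b) = ρ + ∑ b', mA q b b' := by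
      intro b
      rw [integral_add (integrable_const _) (hdI b), hdE b]
      simp
    simp_rw [h1]
    have h2 := hms (fun _ => 1)
    simp only [mul_one] at h2
    have h3 : ∀ b, m b * (ρ + ∑ b', mA q b b') = ρ * m b + m b * ∑ b', mA q b b' :=
      fun b => by ring
    simp_rw [h3]
    rw [Finset.sum_add_distrib, ← Finset.mul_sum, h2]
    ring
  -- the numerator
  have hsqI : ∀ b, Integrable (fun ω => WW ρ e b ω ^ 2) (law q b) := fun b => (hW2 b).integrable_sq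
  have hM2 := hM1.2 (fun b ω => WW ρ e b ω ^ 2) hsqI
  have hnum : ∀ b, Tendsto (fun L : ℕ =>
      ∫ ω, (ρ + ((cht ω []).card : ℝ)) * GLf ρ e L b ω ∂(law q b)) atTop
      (𝓝 (∫ ω, (TT (fun b ω => WW ρ e b ω ^ 2) b ω + ρ * WW ρ e b ω ^ 2) ∂(law q b))) := by
    intro b
    have hexp : ∀ (L : ℝ) (ω : Env Q), (ρ + ((cht ω []).card : ℝ)) * GLf ρ e L b ω =
        (∑ c ∈ chd (ω []), tru L (WW ρ e c.1 (sh [c] ω)) ^ 2 + ρ * tru L (WW ρ e b ω) ^ 2) -
        (∑ c ∈ chd (ω []), tru L (WW ρ e c.1 (sh [c] ω)) - ρ * tru L (WW ρ e b ω)) ^ 2 /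
          (ρ + ((chd (ω [])).card : ℝ)) := by
      intro L ω
      have h1 : (0 : ℝ) ≤ ((chd (ω [])).card : ℝ) := Nat.cast_nonneg _
      have h2 : ρ + ((chd (ω [])).card : ℝ) ≠ 0 := by positivity
      unfold GLf cht
      field_simp
    refine tendsto_integral_of_dominated_convergence
      (fun ω => TT (fun b ω => WW ρ e b ω ^ 2) b ω + ρ * WW ρ e b ω ^ 2) ?_ ?_ ?_ ?_
    · intro L
      have hT1 := (hM1.2 (fun b ω => tru (L : ℝ) (WW ρ e b ω)) (fun b' => by
        refine Integrable.mono' (g := fun _ => (L : ℝ)) (integrable_const _) ?_ ?_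
        · exact ((tru_meas _).comp (hWm b')).aestronglyMeasurable
        · exact Eventually.of_forall fun ω => tru_abs_le (Nat.cast_nonneg L) _) b).1
      have hT2 := (hM1.2 (fun b ω => tru (L : ℝ) (WW ρ e b ω) ^ 2) (fun b' => by
        refine Integrable.mono' (hsqI b') ?_ ?_
        · exact (((tru_meas _).comp (hWm b')).pow_const 2).aestronglyMeasurable
        · refine Eventually.of_forall fun ω => ?_
          rw [Real.norm_of_nonneg (sq_nonneg _)]
          exact tru_sq_le (Nat.cast_nonneg L) _) b).1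
      have hT0 := (hd b).1
      have ht : AEMeasurable (fun ω => tru (L : ℝ) (WW ρ e b ω)) (law q b) :=
        ((tru_meas _).comp (hWm b)).aemeasurable
      have hcard : AEMeasurable (fun ω : Env Q => ρ + ((chd (ω [])).card : ℝ)) (law q b) :=
        (hdI b).aestronglyMeasurable.aemeasurable.const_add ρ
      have h3 : AEMeasurable (fun ω =>
        (TT (fun b ω => tru (L : ℝ) (WW ρ e b ω) ^ 2) b ω + ρ * tru (L : ℝ) (WW ρ e b ω) ^ 2) -
        (TT (fun b ω => tru (L : ℝ) (WW ρ e b ω)) b ω - ρ * tru (L : ℝ) (WW ρ e b ω)) ^ 2 /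
          (ρ + ((chd (ω [])).card : ℝ))) (law q b) := by
        refine AEMeasurable.sub (AEMeasurable.add hT2.aestronglyMeasurable.aemeasurable
          ((ht.pow_const 2).const_mul ρ)) (AEMeasurable.div (AEMeasurable.pow_const
            (AEMeasurable.sub hT1.aestronglyMeasurable.aemeasurable (ht.const_mul ρ)) 2) hcard)
      refine h3.aestronglyMeasurable.congr (Eventually.of_forall fun ω => ?_)
      show _ = (ρ + ((cht ω []).card : ℝ)) * GLf ρ e L b ω
      rw [hexp]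
      rfl
    · exact (hM2 b).1.add ((hsqI b).const_mul ρ)
    · intro L
      refine Eventually.of_forall fun ω => ?_
      rw [hexp, Real.norm_eq_abs, abs_le]
      have h1 := alg_bound (chd (ω [])) (fun c => tru (L : ℝ) (WW ρ e c.1 (sh [c] ω)))
        (tru (L : ℝ) (WW ρ e b ω)) ρ hρ
      have h2 : 0 ≤ (∑ c ∈ chd (ω []), tru (L : ℝ) (WW ρ e c.1 (sh [c] ω)) -
          ρ * tru (L : ℝ) (WW ρ e b ω)) ^ 2 / (ρ + ((chd (ω [])).card : ℝ)) := by positivity
      have h3 : ∑ c ∈ chd (ω []), tru (L : ℝ) (WW ρ e c.1 (sh [c] ω)) ^ 2 +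
          ρ * tru (L : ℝ) (WW ρ e b ω) ^ 2 ≤
          TT (fun b ω => WW ρ e b ω ^ 2) b ω + ρ * WW ρ e b ω ^ 2 := by
        refine add_le_add (Finset.sum_le_sum fun c _ => tru_sq_le (Nat.cast_nonneg L) _)
          (mul_le_mul_of_nonneg_left (tru_sq_le (Nat.cast_nonneg L) _) hρ.le)
      have h4 : 0 ≤ ∑ c ∈ chd (ω []), tru (L : ℝ) (WW ρ e c.1 (sh [c] ω)) ^ 2 +
          ρ * tru (L : ℝ) (WW ρ e b ω) ^ 2 :=
        add_nonneg (Finset.sum_nonneg fun c _ => sq_nonneg _) (mul_nonneg hρ.le (sq_nonneg _))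
      constructor <;> linarith
    · filter_upwards [hrec b] with ω hω
      have hev : ∀ᶠ L : ℕ in atTop, (∀ c ∈ chd (ω []), |WW ρ e c.1 (sh [c] ω)| ≤ (L : ℝ)) ∧
          |WW ρ e b ω| ≤ (L : ℝ) := by
        refine Filter.Eventually.and ?_ (tendsto_natCast_atTop_atTop.eventually_ge_atTop _)
        rw [Filter.eventually_all_finset]
        intro c _
        exact tendsto_natCast_atTop_atTop.eventually_ge_atTop _
      refine tendsto_const_nhds.congr' ?_
      filter_upwards [hev] with L hL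
      rw [hexp]
      have h1 : ∑ c ∈ chd (ω []), tru (L : ℝ) (WW ρ e c.1 (sh [c] ω)) ^ 2 =
          TT (fun b ω => WW ρ e b ω ^ 2) b ω := by
        refine Finset.sum_congr rfl fun c hc => ?_
        rw [tru_eq (hL.1 c hc)]
      have h2 : ∑ c ∈ chd (ω []), tru (L : ℝ) (WW ρ e c.1 (sh [c] ω)) =
          ∑ c ∈ chd (ω []), WW ρ e c.1 (sh [c] ω) :=
        Finset.sum_congr rfl fun c hc => tru_eq (hL.1 c hc)
      rw [h1, h2, tru_eq hL.2, ← hω, sub_self]
      simp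
  have hlim : ∀ b, ∫ ω, (TT (fun b ω => WW ρ e b ω ^ 2) b ω + ρ * WW ρ e b ω ^ 2) ∂(law q b) =
      (∑ b', mA q b b' * ∫ ω, WW ρ e b' ω ^ 2 ∂(law q b')) +
        ρ * ∫ ω, WW ρ e b ω ^ 2 ∂(law q b) := by
    intro b
    rw [integral_add (hM2 b).1 ((hsqI b).const_mul ρ), (hM2 b).2, integral_const_mul]
  have hsum : Tendsto (fun L : ℕ =>
      ∑ b, m b * ∫ ω, (ρ + ((cht ω []).card : ℝ)) * GLf ρ e L b ω ∂(law q b)) atTop
      (𝓝 (2 * ρ * etaA q ρ e m)) := by
    have h1 : Tendsto (fun L : ℕ =>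
      ∑ b, m b * ∫ ω, (ρ + ((cht ω []).card : ℝ)) * GLf ρ e L b ω ∂(law q b)) atTop
      (𝓝 (∑ b, m b * ∫ ω, (TT (fun b ω => WW ρ e b ω ^ 2) b ω + ρ * WW ρ e b ω ^ 2)
        ∂(law q b))) :=
      tendsto_finsetSum _ fun b _ => (hnum b).const_mul (m b)
    have h2 : ∑ b, m b * ∫ ω, (TT (fun b ω => WW ρ e b ω ^ 2) b ω + ρ * WW ρ e b ω ^ 2)
        ∂(law q b) = 2 * ρ * etaA q ρ e m := by
      simp_rw [hlim]
      have h3 := hms (fun b => ∫ ω, WW ρ e b ω ^ 2 ∂(law q b))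
      have h4 : ∀ b, m b * ((∑ b', mA q b b' * ∫ ω, WW ρ e b' ω ^ 2 ∂(law q b')) +
        ρ * ∫ ω, WW ρ e b ω ^ 2 ∂(law q b)) =
        m b * (∑ b', mA q b b' * ∫ ω, WW ρ e b' ω ^ 2 ∂(law q b')) +
        ρ * (m b * ∫ ω, WW ρ e b ω ^ 2 ∂(law q b)) := fun b => by ring
      simp_rw [h4]
      rw [Finset.sum_add_distrib, h3, ← Finset.mul_sum]
      unfold etaA
      ring
    rw [h2] at h1
    exact h1
  have hfin := hsum.div_const (2 * ρ * ∑ b, m b)
  have h5 : 2 * ρ * etaA q ρ e m / (2 * ρ * ∑ b, m b) = etaA q ρ e m / ∑ b, m b := by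
    rw [mul_div_mul_left _ _ (by positivity)]
  rw [h5] at hfin
  unfold S_CL cG
  rw [hden]
  exact hfin

end Pool.Agent.H551
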