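import Mathlib
import Pool.Agent.H812.Tm.Spec2
import Pool.Graph.R_seed8.W811.Stu.Grow

/-!
# Project TM of helper812: `SLeaf`

Integral curves of the slope field stay in the stable set.
-/

set_option autoImplicit false

open Real Filter Topology Set
open scoped ContDiff NNReal

namespace Pool.Agent.H551.TmLEAF

open Pool.Agent.W811.Stu Pool.Agent.H812.Tm

/-! ### equations on the strip -/

theorem isOpen_U : IsOpen U := isOpen_lt (by fun_prop) continuous_const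

/-- fields on the strip which are bounded and Lipschitz in the second variable -/
structure Fld (f : ℝ × ℝ → ℝ) : Prop where
  cont : ContinuousOn f U
  lip : ∀ r : ℝ, r < 1 → ∃ K : ℝ≥0, ∀ z, |z| ≤ r → (∀ t, |f (z, t)| ≤ K) ∧
    LipschitzWith K (fun t => f (z, t))

theorem fld_of_C1 {f : ℝ × ℝ → ℝ} (hf : ContDiffOn ℝ 1 f U)
    (hp : ∀ z t, f (z, t + 2 * π) = f (z, t)) : Fld f := by
  refine ⟨hf.continuousOn, fun r hr => ?_⟩
  have hQ : IsCompact (Icc (-r) r ×ˢ Icc (0 : ℝ) (2 * π)) := isCompact_Icc.prod isCompact_Icc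
  have hQU : (Icc (-r) r ×ˢ Icc (0 : ℝ) (2 * π)) ⊆ U := by
    rintro ⟨z, t⟩ ⟨hz, -⟩
    show |z| < 1
    exact lt_of_le_of_lt (abs_le.2 ⟨hz.1, hz.2⟩) hr
  obtain ⟨C1, hC1⟩ := hQ.exists_bound_of_continuousOn (hf.continuousOn.mono hQU)
  have hfd : ContinuousOn (fderiv ℝ f) U := hf.continuousOn_fderiv_of_isOpen isOpen_U le_rfl
  obtain ⟨C2, hC2⟩ := hQ.exists_bound_of_continuousOn (hfd.mono hQU)
  obtain ⟨K, hKe⟩ : ∃ K : ℝ≥0, (K : ℝ) = max (max C1 C2) 0 :=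
    ⟨Real.toNNReal _, Real.coe_toNNReal _ (le_max_right _ _)⟩
  refine ⟨K, fun z hz => ?_⟩
  have hper : Function.Periodic (fun t => f (z, t)) (2 * π) := fun t => hp z t
  have hzU : ∀ t, (z, t) ∈ U := fun t => lt_of_le_of_lt hz hr
  have hzr : z ∈ Icc (-r) r := abs_le.1 hz
  constructor
  · intro t
    obtain ⟨y, hy, hy2⟩ := hper.exists_mem_Ico₀ (by positivity) t
    have e : f (z, t) = f (z, y) := hy2
    rw [e, hKe]
    exact (hC1 (z, y) ⟨hzr, ⟨hy.1, hy.2.le⟩⟩).trans ((le_max_left _ _).trans (le_max_left _ _))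
  · have hd : ∀ t, HasDerivAt (fun t => f (z, t)) (fderiv ℝ f (z, t) (0, 1)) t := by
      intro t
      have h1 : HasFDerivAt f (fderiv ℝ f (z, t)) (z, t) :=
        ((hf.contDiffAt (isOpen_U.mem_nhds (hzU t))).differentiableAt one_ne_zero).hasFDerivAt
      have h2 : HasDerivAt (fun t : ℝ => (z, t)) ((0 : ℝ), (1 : ℝ)) t :=
        (hasDerivAt_const t z).prodMk (hasDerivAt_id t)
      exact h1.comp_hasDerivAt t h2
    apply lipschitzWith_of_nnnorm_deriv_le (fun t => (hd t).differentiableAt)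
    intro t
    have hper' : Function.Periodic (deriv fun t => f (z, t)) (2 * π) := by
      intro t
      rw [← deriv_comp_add_const]
      congr 1
      funext s
      exact hp z s
    obtain ⟨y, hy, hy2⟩ := hper'.exists_mem_Ico₀ (by positivity) t
    rw [hy2, (hd y).deriv, ← NNReal.coe_le_coe, coe_nnnorm, hKe]
    refine le_trans ?_ ((le_max_right C1 C2).trans (le_max_left _ _))
    refine (ContinuousLinearMap.le_opNorm _ _).trans ?_
    have h3 : ‖((0 : ℝ), (1 : ℝ))‖ = 1 := by simp [Prod.norm_def]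
    rw [h3, mul_one]
    exact hC2 (z, y) ⟨hzr, ⟨hy.1, hy.2.le⟩⟩

theorem solve {f : ℝ × ℝ → ℝ} (hf : Fld f) {r : ℝ} (hr : r < 1) (z0 t0 : ℝ) (hz0 : |z0| ≤ r) :
    ∃ ϑ : ℝ → ℝ, ϑ z0 = t0 ∧ ∀ z ∈ Icc (-r) r, HasDerivWithinAt ϑ (f (z, ϑ z)) (Icc (-r) r) z := by
  obtain ⟨K, hK⟩ := hf.lip r hr
  have hr0 : 0 ≤ r := (abs_nonneg _).trans hz0
  have h : IsPicardLindelof (fun z t => f (z, t)) (tmin := -r) (tmax := r)
      ⟨z0, abs_le.1 hz0⟩ t0 (K * 2) 0 K K := by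
    refine ⟨?_, ?_, ?_, ?_⟩
    · intro z hz
      exact ((hK z (abs_le.2 hz)).2).lipschitzOnWith
    · intro t _
      refine hf.cont.comp (by fun_prop) ?_
      intro z hz
      exact lt_of_le_of_lt (abs_le.2 hz) hr
    · intro z hz t _
      exact (hK z (abs_le.2 hz)).1 t
    · have h1 : max (r - z0) (z0 - -r) ≤ 2 := by
        have := abs_le.1 hz0
        apply max_le <;> linarith
      have h2 : (K : ℝ) * max (r - z0) (z0 - -r) ≤ K * 2 := mul_le_mul_of_nonneg_left h1 (NNReal.coe_nonneg K)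
      simpa using h2
  exact h.exists_eq_forall_mem_Icc_hasDerivWithinAt₀

theorem uniq {f : ℝ × ℝ → ℝ} (hf : Fld f) {r : ℝ} (hr : r < 1) {z0 : ℝ} (hz0 : |z0| < r)
    {α β : ℝ → ℝ} (h0 : α z0 = β z0)
    (hα : ∀ z, |z| < r → HasDerivAt α (f (z, α z)) z)
    (hβ : ∀ z, |z| < r → HasDerivAt β (f (z, β z)) z) : ∀ z, |z| < r → α z = β z := by
  obtain ⟨K, hK⟩ := hf.lip r hr
  have h := ODE_solution_unique_of_mem_Ioo (v := fun z t => f (z, t)) (s := fun _ => univ) (K := K)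
    (a := -r) (b := r) (t₀ := z0) (f := α) (g := β)
    (fun z hz => ((hK z (abs_lt.2 hz).le).2).lipschitzOnWith) (abs_lt.1 hz0)
    (fun z hz => ⟨hα z (abs_lt.2 hz), mem_univ _⟩) (fun z hz => ⟨hβ z (abs_lt.2 hz), mem_univ _⟩) h0
  intro z hz
  exact h (abs_lt.1 hz)

theorem exist_glob {f : ℝ × ℝ → ℝ} (hf : Fld f) (z0 t0 : ℝ) (hz0 : |z0| < 1) :
    ∃ ϑ : ℝ → ℝ, ϑ z0 = t0 ∧ ∀ z, |z| < 1 → HasDerivAt ϑ (f (z, ϑ z)) z := by
  have h : ∀ r : ℝ, ∃ ϑ : ℝ → ℝ, |z0| < r → r < 1 → (ϑ z0 = t0 ∧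
      ∀ z, |z| < r → HasDerivAt ϑ (f (z, ϑ z)) z) := by
    intro r
    by_cases h : |z0| < r ∧ r < 1
    · obtain ⟨ϑ, h1, h2⟩ := solve hf h.2 z0 t0 h.1.le
      refine ⟨ϑ, fun _ _ => ⟨h1, fun z hz => ?_⟩⟩
      exact (h2 z (abs_le.1 hz.le)).hasDerivAt (Icc_mem_nhds (abs_lt.1 hz).1 (abs_lt.1 hz).2)
    · exact ⟨fun _ => 0, fun h1 h2 => absurd ⟨h1, h2⟩ h⟩
  choose α hα using h
  obtain ⟨ρ, hρ⟩ : ∃ ρ : ℝ → ℝ, ρ = fun z => (1 + max |z| |z0|) / 2 := ⟨_, rfl⟩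
  have hρ1 : ∀ z, |z| < 1 → ρ z < 1 := by
    intro z hz
    have := max_lt hz hz0
    rw [hρ]
    show (1 + max |z| |z0|) / 2 < 1
    linarith
  have hρ2 : ∀ z, |z| < 1 → |z0| < ρ z := by
    intro z hz
    have := le_max_right |z| |z0|
    have h3 := max_lt hz hz0
    rw [hρ]
    show |z0| < (1 + max |z| |z0|) / 2
    linarith
  have hρ3 : ∀ z, |z| < 1 → |z| < ρ z := by
    intro z hz
    have := le_max_left |z| |z0|
    have h3 := max_lt hz hz0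
    rw [hρ]
    show |z| < (1 + max |z| |z0|) / 2
    linarith
  have heq : ∀ z, |z| < 1 → ∀ r, |z0| < r → r < 1 → |z| < r → α (ρ z) z = α r z := by
    intro z hz r h1 h2 h3
    have hm : min (ρ z) r < 1 := (min_le_right _ _).trans_lt h2
    obtain ⟨a1, a2⟩ := hα (ρ z) (hρ2 z hz) (hρ1 z hz)
    obtain ⟨b1, b2⟩ := hα r h1 h2
    exact uniq hf hm (lt_min (hρ2 z hz) h1) (a1.trans b1.symm)
      (fun w hw => a2 w (hw.trans_le (min_le_left _ _)))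
      (fun w hw => b2 w (hw.trans_le (min_le_right _ _))) z (lt_min (hρ3 z hz) h3)
  refine ⟨fun z => α (ρ z) z, (hα _ (hρ2 z0 hz0) (hρ1 z0 hz0)).1, fun z hz => ?_⟩
  have h1 := (hα (ρ z) (hρ2 z hz) (hρ1 z hz)).2 z (hρ3 z hz)
  refine h1.congr_of_eventuallyEq ?_
  have h2 : ∀ᶠ w in 𝓝 z, |w| < ρ z :=
    (isOpen_lt continuous_abs continuous_const).mem_nhds (hρ3 z hz)
  filter_upwards [h2] with w hw
  exact heq w (hw.trans (hρ1 z hz)) (ρ z) (hρ2 z hz) (hρ1 z hz) hw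

/-- comparison, forward -/
theorem close_fwd {v : ℝ → ℝ → ℝ} {K : ℝ≥0} {a b ε : ℝ} (hab : a ≤ b)
    (hv : ∀ z ∈ Icc a b, LipschitzWith K (v z)) {ψ ϑ ψ' : ℝ → ℝ}
    (h0 : ψ a = ϑ a) (hψ : ∀ z ∈ Icc a b, HasDerivAt ψ (ψ' z) z)
    (hε : ∀ z ∈ Icc a b, |ψ' z - v z (ψ z)| ≤ ε)
    (hϑ : ∀ z ∈ Icc a b, HasDerivAt ϑ (v z (ϑ z)) z) :
    |ψ b - ϑ b| ≤ gronwallBound 0 K ε (b - a) := by
  have h := dist_le_of_approx_trajectories_ODE_of_mem (v := v) (s := fun _ => univ) (K := K)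
    (f := ψ) (g := ϑ) (f' := ψ') (g' := fun z => v z (ϑ z)) (a := a) (b := b) (εf := ε) (εg := 0)
    (δ := 0) (fun z hz => (hv z (Ico_subset_Icc_self hz)).lipschitzOnWith)
    (fun z hz => (hψ z hz).continuousAt.continuousWithinAt)
    (fun z hz => (hψ z (Ico_subset_Icc_self hz)).hasDerivWithinAt)
    (fun z hz => by rw [Real.dist_eq]; exact hε z (Ico_subset_Icc_self hz))
    (fun _ _ => mem_univ _)
    (fun z hz => (hϑ z hz).continuousAt.continuousWithinAt)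
    (fun z hz => (hϑ z (Ico_subset_Icc_self hz)).hasDerivWithinAt)
    (fun z _ => by rw [dist_self])
    (fun _ _ => mem_univ _) (by rw [h0, dist_self]) b (right_mem_Icc.2 hab)
  rw [Real.dist_eq, add_zero] at h
  exact h

theorem close {f : ℝ × ℝ → ℝ} {K : ℝ≥0} {r ε : ℝ} (hr : r < 1) (hε0 : 0 ≤ ε)
    (hK : ∀ z, |z| ≤ r → LipschitzWith K (fun t => f (z, t))) {z0 z1 : ℝ} (hz0 : |z0| ≤ r)
    (hz1 : |z1| ≤ r) {ψ ϑ ψ' : ℝ → ℝ} (h0 : ψ z0 = ϑ z0)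
    (hψ : ∀ z, |z| ≤ r → HasDerivAt ψ (ψ' z) z)
    (hε : ∀ z, |z| ≤ r → |ψ' z - f (z, ψ z)| ≤ ε)
    (hϑ : ∀ z, |z| ≤ r → HasDerivAt ϑ (f (z, ϑ z)) z) :
    |ψ z1 - ϑ z1| ≤ gronwallBound 0 K ε 2 := by
  have g0 := abs_le.1 hz0
  have g1 := abs_le.1 hz1
  have mono := gronwallBound_mono (δ := 0) (K := (K : ℝ)) le_rfl hε0 (NNReal.coe_nonneg K)
  rcases le_total z0 z1 with h | h
  · have hI : ∀ z ∈ Icc z0 z1, |z| ≤ r := fun z hz => abs_le.2 ⟨by linarith [hz.1], by linarith [hz.2]⟩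
    refine (close_fwd (v := fun z t => f (z, t)) h (fun z hz => hK z (hI z hz)) h0
      (fun z hz => hψ z (hI z hz)) (fun z hz => hε z (hI z hz)) (fun z hz => hϑ z (hI z hz))).trans
      (mono ?_)
    linarith
  · have hI : ∀ z ∈ Icc (-z0) (-z1), |(-z)| ≤ r :=
      fun z hz => abs_le.2 ⟨by linarith [hz.2], by linarith [hz.1]⟩
    have hneg : ∀ (φ : ℝ → ℝ) (c z : ℝ), HasDerivAt φ c (-z) →
        HasDerivAt (fun s => φ (-s)) (-c) z := by
      intro φ c z hφ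
      have h := hφ.comp z (hasDerivAt_neg z)
      rw [mul_neg_one] at h
      exact h
    have key := close_fwd (v := fun z t => -f (-z, t)) (K := K) (ε := ε) (a := -z0) (b := -z1)
      (ψ := fun s => ψ (-s)) (ϑ := fun s => ϑ (-s)) (ψ' := fun s => -ψ' (-s))
      (by linarith) (fun z hz => ?_) (by simpa using h0) (fun z hz => ?_) (fun z hz => ?_)
      (fun z hz => ?_)
    · simp only [neg_neg] at key
      refine key.trans (mono ?_)
      linarith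
    · have := (hK (-z) (hI z hz)).neg
      exact this
    · exact hneg ψ _ z (hψ (-z) (hI z hz))
    · have := hε (-z) (hI z hz)
      show |-ψ' (-z) - -f (-z, ψ (-z))| ≤ ε
      rw [neg_sub_neg, abs_sub_comm]
      exact this
    · exact hneg ϑ _ z (hϑ (-z) (hI z hz))

/-! ### curves on which a level function is constant -/

theorem theta_lip {κ : ℝ} {θ : ℝ → ℝ} (hθ : Cut κ θ) : ∃ C : ℝ≥0, LipschitzWith C θ := by
  refine ContDiff.lipschitzWith_of_hasCompactSupport (n := 1) ?_ (hθ.smooth.of_le ?_) one_ne_zero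
  · refine HasCompactSupport.intro (isCompact_Icc (a := -κ) (b := κ)) ?_
    intro x hx
    apply hθ.zero
    by_contra h
    push Not at h
    exact hx (abs_le.1 h.le)
  · exact_mod_cast le_top

theorem dt_ne (hC : SCoord) (hD : SDt) {δ : ℝ} (hδ : δ ≠ 0) {d : ℕ → ℕ} (hd : ∀ k, 1 ≤ d k)
    {M : ℕ} (hM : 2 ≤ M) {v : ℝ × ℝ} (hv : v ∈ U) (h : |Yf δ d M v| < cc δ) :
    dt (Yf δ d M) v ≠ 0 := by
  have hv1 : |v.1| < 1 := hv
  obtain ⟨c0, hc0, hlb⟩ := tLB δ |Yf δ d M v| hδ (abs_nonneg _) h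
  have h1 := hlb d hd M hM (ze δ v) ((hC δ).1 v hv) (show |v.1| ≤ 1 from hv1.le) le_rfl
  have h2 : Vy d M (ze δ v) ≠ 0 := by
    intro h0
    rw [h0, abs_zero] at h1
    have : 0 < c0 * 2 ^ (M / 2) := by positivity
    linarith
  rw [(hD δ d M).2.2 v hv]
  have h3 : 0 < 1 - v.1 ^ 2 := by
    have := (sq_lt_one_iff_abs_lt_one v.1).2 hv1
    linarith
  exact div_ne_zero (neg_ne_zero.2 h2) (Real.sqrt_pos.2 h3).ne'

/-- the field whose curves are level curves -/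
noncomputable def sM (θ : ℝ → ℝ) (δ : ℝ) (d : ℕ → ℕ) (M : ℕ) (v : ℝ × ℝ) : ℝ :=
  θ (Yf δ d M v) * sl (Yf δ d M) v

theorem sM_C1 (hC : SCoord) (hD : SDt) {δ κ : ℝ} (hδ : δ ≠ 0) (hκ : κ < cc δ) {d : ℕ → ℕ}
    (hd : ∀ k, 1 ≤ d k) {θ : ℝ → ℝ} (hθ : Cut κ θ) {M : ℕ} (hM : 2 ≤ M) :
    ContDiffOn ℝ 1 (sM θ δ d M) U := by
  intro v hv
  apply ContDiffAt.contDiffWithinAt
  have hY : ContDiffAt ℝ ∞ (Yf δ d M) v := ((hD δ d M).1).contDiffAt (isOpen_U.mem_nhds hv)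
  rcases lt_or_ge |Yf δ d M v| (cc δ) with h | h
  · have h1 := dt_ne hC hD hδ hd hM hv h
    have hf : ContDiffAt ℝ 1 (fderiv ℝ (Yf δ d M)) v := hY.fderiv_right (m := 1)
      (WithTop.coe_le_coe.2 (le_top : (1 + 1 : ℕ∞) ≤ ⊤))
    have hz : ContDiffAt ℝ 1 (dz (Yf δ d M)) v := hf.clm_apply contDiffAt_const
    have ht : ContDiffAt ℝ 1 (dt (Yf δ d M)) v := hf.clm_apply contDiffAt_const
    have hs : ContDiffAt ℝ 1 (sl (Yf δ d M)) v := hz.neg.div ht h1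
    have hθ' : ContDiffAt ℝ 1 (fun w => θ (Yf δ d M w)) v :=
      ((hθ.smooth.of_le (by exact_mod_cast le_top)).contDiffAt).comp v
        (hY.of_le (by exact_mod_cast le_top))
    exact hθ'.mul hs
  · have h1 : κ < |Yf δ d M v| := lt_of_lt_of_le hκ h
    have h2 : ∀ᶠ w in 𝓝 v, κ < |Yf δ d M w| :=
      (hY.continuousAt.abs).eventually (lt_mem_nhds h1)
    have h3 : sM θ δ d M =ᶠ[𝓝 v] fun _ => 0 := by
      filter_upwards [h2] with w hw
      unfold sM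
      rw [hθ.zero _ hw.le, zero_mul]
    exact (contDiffAt_const (c := (0 : ℝ))).congr_of_eventuallyEq h3

theorem fderiv_per {f : ℝ × ℝ → ℝ} (hp : ∀ z t, f (z, t + 2 * π) = f (z, t)) (z t : ℝ) :
    fderiv ℝ f (z, t + 2 * π) = fderiv ℝ f (z, t) := by
  have h1 : (fun v : ℝ × ℝ => f (v + (0, 2 * π))) = f := by
    funext v
    have : v + (0, 2 * π) = (v.1, v.2 + 2 * π) := by
      ext <;> simp
    rw [this, hp]
  have h2 := fderiv_comp_add_right (𝕜 := ℝ) (f := f) (x := (z, t)) (0, 2 * π)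
  rw [h1] at h2
  rw [h2]
  congr 1
  ext <;> simp

theorem sM_per (hD : SDt) (δ : ℝ) (d : ℕ → ℕ) (θ : ℝ → ℝ) (M : ℕ) (z t : ℝ) :
    sM θ δ d M (z, t + 2 * π) = sM θ δ d M (z, t) := by
  have hp := (hD δ d M).2.1
  unfold sM sl dz dt
  rw [hp, fderiv_per hp]

theorem level (hC : SCoord) (hD : SDt) {δ κ : ℝ} (hδ : δ ≠ 0) (hκ : κ < cc δ)
    {d : ℕ → ℕ} (hd : ∀ k, 1 ≤ d k) {θ : ℝ → ℝ} (hθ : Cut κ θ) {M : ℕ} (hM : 2 ≤ M)
    {v0 : ℝ × ℝ} (hv0 : v0 ∈ U) (hY0 : |Yf δ d M v0| ≤ 1) :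
    ∃ ψ : ℝ → ℝ, ψ v0.1 = v0.2 ∧ ∀ z, |z| < 1 →
      HasDerivAt ψ (sl (Yf δ d M) (z, ψ z)) z ∧ |Yf δ d M (z, ψ z)| ≤ 1 := by
  obtain ⟨ψ, h0, h1⟩ := exist_glob (fld_of_C1 (sM_C1 hC hD hδ hκ hd hθ hM) (sM_per hD δ d θ M))
    v0.1 v0.2 hv0
  obtain ⟨Y, hY⟩ : ∃ Y, Y = Yf δ d M := ⟨_, rfl⟩
  have hYC : ContDiffOn ℝ ∞ Y U := by rw [hY]; exact (hD δ d M).1
  -- the level along the curve
  have hw : ∀ z, |z| < 1 → HasDerivAt (fun z => Y (z, ψ z))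
      (dz Y (z, ψ z) * (1 - θ (Y (z, ψ z)))) z := by
    intro z hz
    have hzU : (z, ψ z) ∈ U := hz
    have k1 : HasFDerivAt Y (fderiv ℝ Y (z, ψ z)) (z, ψ z) :=
      ((hYC.contDiffAt (isOpen_U.mem_nhds hzU)).differentiableAt (by simp)).hasFDerivAt
    have k2 : HasDerivAt (fun z => (z, ψ z)) ((1 : ℝ), sM θ δ d M (z, ψ z)) z :=
      (hasDerivAt_id z).prodMk (h1 z hz)
    have k3 := k1.comp_hasDerivAt z k2
    refine k3.congr_deriv ?_
    have k4 : ((1 : ℝ), sM θ δ d M (z, ψ z)) = (1, 0) + sM θ δ d M (z, ψ z) • ((0 : ℝ), (1 : ℝ)) := by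
      ext <;> simp
    rw [k4, map_add, map_smul, smul_eq_mul]
    show dz Y (z, ψ z) + sM θ δ d M (z, ψ z) * dt Y (z, ψ z) = _
    have k5 : sM θ δ d M (z, ψ z) * dt Y (z, ψ z) = -(θ (Y (z, ψ z)) * dz Y (z, ψ z)) := by
      unfold sM
      rw [← hY]
      rcases lt_or_ge |Y (z, ψ z)| (cc δ) with h | h
      · have := dt_ne hC hD hδ hd hM hzU (by rw [← hY]; exact h)
        rw [← hY] at this
        unfold sl
        field_simp
      · rw [hθ.zero _ (hκ.le.trans h)]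
        ring
    rw [k5]
    ring
  have hψc : ContinuousOn (fun z => (z, ψ z)) {z | |z| < 1} := by
    intro z hz
    exact (continuousAt_id.prodMk (h1 z hz).continuousAt).continuousWithinAt
  have hdzc : ContinuousOn (dz Y) U := by
    have hfd : ContinuousOn (fderiv ℝ Y) U := hYC.continuousOn_fderiv_of_isOpen isOpen_U (by simp)
    exact hfd.clm_apply continuousOn_const
  have hg : ContinuousOn (fun z => dz Y (z, ψ z)) {z | |z| < 1} :=
    hdzc.comp hψc fun z hz => hz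
  obtain ⟨Cθ, hCθ⟩ := theta_lip hθ
  have hw0 : |Y (v0.1, ψ v0.1)| ≤ 1 := by
    rw [h0, hY]
    exact hY0
  have hθ0 : θ (Y (v0.1, ψ v0.1)) = 1 := hθ.one _ hw0
  have hconst : ∀ z, |z| < 1 → Y (z, ψ z) = Y (v0.1, ψ v0.1) := by
    intro z1 hz1
    obtain ⟨r, hr1, hr2⟩ : ∃ r, max |z1| |v0.1| < r ∧ r < 1 := exists_between (max_lt hz1 hv0)
    have hrI : Icc (-r) r ⊆ {z | |z| < 1} := fun z hz => lt_of_le_of_lt (abs_le.2 hz) hr2
    obtain ⟨B, hB⟩ := isCompact_Icc.exists_bound_of_continuousOn (hg.mono hrI)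
    obtain ⟨B', hB'⟩ : ∃ B' : ℝ≥0, B ≤ B' := ⟨Real.toNNReal B, Real.le_coe_toNNReal B⟩
    have hu := ODE_solution_unique_of_mem_Ioo (v := fun z x => dz Y (z, ψ z) * (1 - θ x))
      (s := fun _ => univ) (K := B' * Cθ) (a := -r) (b := r) (t₀ := v0.1)
      (f := fun z => Y (z, ψ z)) (g := fun _ => Y (v0.1, ψ v0.1))
      (fun z hz => by
        apply LipschitzWith.lipschitzOnWith
        apply LipschitzWith.of_dist_le_mul
        intro x y
        rw [Real.dist_eq, Real.dist_eq]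
        have e1 : dz Y (z, ψ z) * (1 - θ x) - dz Y (z, ψ z) * (1 - θ y) =
          dz Y (z, ψ z) * (θ y - θ x) := by ring
        rw [e1, abs_mul, NNReal.coe_mul, mul_assoc]
        apply mul_le_mul
        · exact (hB z (Ioo_subset_Icc_self hz)).trans hB'
        · have := hCθ.dist_le_mul y x
          rw [Real.dist_eq, Real.dist_eq, abs_sub_comm y x] at this
          exact this
        · exact abs_nonneg _
        · exact NNReal.coe_nonneg _)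
      (abs_lt.1 ((le_max_right _ _).trans_lt hr1))
      (fun z hz => ⟨hw z (hrI (Ioo_subset_Icc_self hz)), mem_univ _⟩)
      (fun z _ => ⟨by
        show HasDerivAt (fun _ => Y (v0.1, ψ v0.1)) (dz Y (z, ψ z) * (1 - θ (Y (v0.1, ψ v0.1)))) z
        rw [hθ0, sub_self, mul_zero]
        exact hasDerivAt_const _ _, mem_univ _⟩) rfl
    exact hu (abs_lt.1 ((le_max_left _ _).trans_lt hr1))
  refine ⟨ψ, h0, fun z hz => ?_⟩
  have h2 : |Y (z, ψ z)| ≤ 1 := by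
    rw [hconst z hz]
    exact hw0
  refine ⟨?_, by rw [← hY]; exact h2⟩
  have h3 := h1 z hz
  have h4 : sM θ δ d M (z, ψ z) = sl (Yf δ d M) (z, ψ z) := by
    unfold sM
    rw [← hY, hθ.one _ h2, one_mul]
  rwa [h4] at h3

/-! ### the theorem -/

theorem tLEAF (hF : SField) (_hS : SSlope) (hA : SAl) (hD : SDt) (hC : SCoord) : SLeaf := by
  intro δ κ d θ hδ hκ1 hκ hd hθ v0 hv0 hal
  obtain ⟨f1, f2, f3⟩ := hF δ κ d θ hδ hκ1 hκ hd hθ
  have hfld := fld_of_C1 f1 f2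
  obtain ⟨ϑ, h0, h1⟩ := exist_glob hfld v0.1 v0.2 hv0
  refine ⟨ϑ, h0, fun z1 hz1 => ⟨h1 z1 hz1, ?_⟩⟩
  intro j
  by_contra hcon
  push Not at hcon
  obtain ⟨c1, c2⟩ := hcon
  have hz1U : (z1, ϑ z1) ∈ U := hz1
  -- continuity
  have hcontj : ∀ m, 1 < |Yf δ d m (z1, ϑ z1)| → ∀ᶠ t in 𝓝 (ϑ z1), 1 < |Yf δ d m (z1, t)| := by
    intro m hm
    have k1 : ContinuousAt (Yf δ d m) (z1, ϑ z1) :=
      (((hD δ d m).1).contDiffAt (isOpen_U.mem_nhds hz1U)).continuousAt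
    have k2 : ContinuousAt (fun t => Yf δ d m (z1, t)) (ϑ z1) :=
      ContinuousAt.comp (f := fun t : ℝ => (z1, t)) k1 (by fun_prop)
    exact k2.abs.eventually (lt_mem_nhds hm)
  have hev := (hcontj j c1).and (hcontj (j + 1) c2)
  rw [Metric.eventually_nhds_iff] at hev
  obtain ⟨η, hη, hη2⟩ := hev
  obtain ⟨r, hr⟩ : ∃ r, r = max |v0.1| |z1| := ⟨_, rfl⟩
  have hr1 : r < 1 := by rw [hr]; exact max_lt hv0 hz1
  have hrv : |v0.1| ≤ r := by rw [hr]; exact le_max_left _ _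
  have hrz : |z1| ≤ r := by rw [hr]; exact le_max_right _ _
  obtain ⟨C, hC0, hCl⟩ := f3 r hr1
  obtain ⟨K, hK⟩ := hfld.lip r hr1
  -- small error
  have hgr : ∀ᶠ ε in 𝓝 (0 : ℝ), gronwallBound 0 K ε 2 < η := by
    have k1 := (gronwallBound_continuous_ε 0 (K : ℝ) 2).continuousAt (x := 0)
    have k2 : gronwallBound 0 (K : ℝ) 0 2 = 0 := gronwallBound_ε0_δ0 _ _
    exact k1.eventually (gt_mem_nhds (by
      show gronwallBound 0 (K : ℝ) 0 2 < η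
      rw [k2]
      exact hη))
  rw [Metric.eventually_nhds_iff] at hgr
  obtain ⟨ε1, hε1, hgr2⟩ := hgr
  obtain ⟨ε, hε⟩ : ∃ ε, ε = ε1 / 2 := ⟨_, rfl⟩
  have hε0 : 0 < ε := by rw [hε]; positivity
  have hgr3 : gronwallBound 0 K ε 2 < η := hgr2 (by
    rw [Real.dist_eq, sub_zero, abs_of_pos hε0, hε]
    linarith)
  -- the level
  obtain ⟨N, hN⟩ : ∃ N : ℕ, C / ε < 2 ^ N := pow_unbounded_of_one_lt _ (by norm_num)
  obtain ⟨n, hn⟩ : ∃ n, n = 2 * N + j + 4 := ⟨_, rfl⟩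
  obtain ⟨M, hM1, hM2⟩ : ∃ M, n ≤ M ∧ |Yf δ d M v0| ≤ 1 := by
    rcases hal n with h | h
    · exact ⟨n, le_rfl, h⟩
    · exact ⟨n + 1, Nat.le_succ n, h⟩
  have hM3 : 3 ≤ M := by omega
  have hjM : j < M := by omega
  have hNM : N ≤ M / 2 := by omega
  have hCM : C ≤ ε * 2 ^ (M / 2) := by
    have k1 : (2 : ℝ) ^ N ≤ 2 ^ (M / 2) := pow_le_pow_right₀ (by norm_num) hNM
    rw [div_lt_iff₀ hε0] at hN
    nlinarith
  obtain ⟨ψ, hψ0, hψ⟩ := level hC hD hδ hκ hd hθ (by omega : 2 ≤ M) hv0 hM2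
  have hcl := close (f := sg θ δ d) (K := K) (ψ := ψ) (ϑ := ϑ)
    (ψ' := fun z => sl (Yf δ d M) (z, ψ z)) hr1 hε0.le (fun z hz => (hK z hz).2)
    hrv hrz (hψ0.trans h0.symm) (fun z hz => (hψ z (hz.trans_lt hr1)).1)
    (fun z hz => by
      have k1 := hCl (z, ψ z) hz M hM3 (hψ z (hz.trans_lt hr1)).2
      rw [abs_sub_comm]
      have k2 : (0 : ℝ) < 2 ^ (M / 2) := by positivity
      exact le_of_mul_le_mul_right (k1.trans hCM) k2)
    (fun z hz => h1 z (hz.trans_lt hr1))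
  have hd1 : dist (ψ z1) (ϑ z1) < η := by
    rw [Real.dist_eq]
    exact hcl.trans_lt hgr3
  obtain ⟨e1, e2⟩ := hη2 hd1
  have hlast := hA 1 le_rfl d hd (ze δ (z1, ψ z1)) (show |z1| ≤ 1 from hz1.le) M
    (hψ z1 hz1).2 j hjM
  rcases hlast with h | h
  · exact absurd h (not_le.2 e1)
  · exact absurd h (not_le.2 e2)

end Pool.Agent.H551.TmLEAF
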