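import Pool.Agent.H812.Gi.Spec
import Pool.Agent.H551.TmLEAF

/-!
# Project GI (helper812), part GSw: change of the transversal. helper551.
-/

set_option autoImplicit false

open Real Filter Topology Set MeasureTheory
open scoped ContDiff ENNReal NNReal

namespace Pool.Agent.H551.GiSw

open Pool.Agent.W811.Stu Pool.Agent.H812.Tm Pool.Agent.W811.Dos Pool.Agent.H812.Gi

theorem cx_shd {δ κ : ℝ} {θ : ℝ → ℝ} {d : ℕ → ℕ} (h : Cx δ κ θ d) (n : ℕ) :
    Cx δ κ θ (shd d n) := ⟨h.hδ, h.hκ1, h.hκ, h.hθ, fun _ => h.hd _⟩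

theorem ZM_vc (δ : ℝ) (d : ℕ → ℕ) (n m : ℕ) (v : ℝ × ℝ) (t : ℝ) :
    ZM d (n + m) (vc δ d n v) t ↔ Yf δ (shd d n) m (v.1, t) = 0 := by
  unfold ZM vc Yf
  rw [orb_add, orb_borb]
  rfl

/-- continuity of the derivative of a `C¹` function at a point -/
theorem c1_deriv {f : ℝ → ℝ} {s0 : ℝ} (h : ContDiffAt ℝ 1 f s0) :
    (∀ᶠ s in 𝓝 s0, HasDerivAt f (deriv f s) s) ∧ ContinuousAt (deriv f) s0 := by
  constructor
  · filter_upwards [h.eventually (by norm_num)] with s hs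
    exact (hs.differentiableAt (by norm_num)).hasDerivAt
  · have h1 : ContDiffAt ℝ 0 (fderiv ℝ f) s0 := h.fderiv_right (m := 0) (by norm_num)
    have h2 : ContinuousAt (fun s => fderiv ℝ f s 1) s0 :=
      h1.continuousAt.clm_apply continuousAt_const
    have e : deriv f = fun s => fderiv ℝ f s 1 := by
      funext s
      exact (fderiv_apply_one_eq_deriv).symm
    rw [e]
    exact h2

/-- two-sided control of a function with derivative close to `μ` -/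
theorem mvt {F F' : ℝ → ℝ} {s0 ρ μ : ℝ} (h : ∀ u, |u - s0| < ρ → HasDerivAt F (F' u) u)
    (hb : ∀ u, |u - s0| < ρ → |F' u - μ| ≤ |μ| / 2) {a b : ℝ} (ha : |a - s0| < ρ)
    (hb' : |b - s0| < ρ) : |F b - F a - μ * (b - a)| ≤ |μ| / 2 * |b - a| := by
  have hG : ∀ u ∈ Metric.ball s0 ρ, HasDerivWithinAt (fun u => F u - μ * u) (F' u - μ)
      (Metric.ball s0 ρ) u := by
    intro u hu
    have hu' : |u - s0| < ρ := by
      rw [← Real.dist_eq]; exact hu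
    have h1 := (h u hu').sub ((hasDerivAt_id u).const_mul μ)
    have h2 : HasDerivAt (fun u => F u - μ * u) (F' u - μ * 1) u := h1
    rw [mul_one] at h2
    exact h2.hasDerivWithinAt
  have hmem : ∀ {u}, |u - s0| < ρ → u ∈ Metric.ball s0 ρ := fun {u} hu => by
    rw [Metric.mem_ball, Real.dist_eq]; exact hu
  have h3 := (convex_ball s0 ρ).norm_image_sub_le_of_norm_hasDerivWithin_le hG
    (C := |μ| / 2) (fun u hu => by
      rw [Real.norm_eq_abs]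
      apply hb
      rw [← Real.dist_eq]; exact hu) (hmem ha) (hmem hb')
  simp only [Real.norm_eq_abs] at h3
  have e : F b - F a - μ * (b - a) = F b - μ * b - (F a - μ * a) := by ring
  rw [e]
  exact h3

theorem lo {F F' : ℝ → ℝ} {s0 ρ μ : ℝ} (h : ∀ u, |u - s0| < ρ → HasDerivAt F (F' u) u)
    (hb : ∀ u, |u - s0| < ρ → |F' u - μ| ≤ |μ| / 2) {a b : ℝ} (ha : |a - s0| < ρ)
    (hb' : |b - s0| < ρ) : |μ| / 2 * |b - a| ≤ |F b - F a| := by
  have h1 := mvt h hb ha hb'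
  have h2 := abs_sub_abs_le_abs_sub (μ * (b - a)) (F b - F a)
  rw [abs_sub_comm (μ * (b - a)) (F b - F a), abs_mul] at h2
  linarith

theorem up {F F' : ℝ → ℝ} {s0 ρ μ : ℝ} (h : ∀ u, |u - s0| < ρ → HasDerivAt F (F' u) u)
    (hb : ∀ u, |u - s0| < ρ → |F' u - μ| ≤ |μ| / 2) {a b : ℝ} (ha : |a - s0| < ρ)
    (hb' : |b - s0| < ρ) : |F b - F a| ≤ 2 * |μ| * |b - a| := by
  have h1 := mvt h hb ha hb'
  have h2 := abs_sub_abs_le_abs_sub (F b - F a) (μ * (b - a))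
  rw [abs_mul] at h2
  have h3 : 0 ≤ |μ| * |b - a| := by positivity
  linarith

/-- a zero near `s0` -/
theorem zero {F F' : ℝ → ℝ} {s0 ρ μ : ℝ} (hμ : μ ≠ 0)
    (h : ∀ u, |u - s0| < ρ → HasDerivAt F (F' u) u)
    (hb : ∀ u, |u - s0| < ρ → |F' u - μ| ≤ |μ| / 2) {ρ' : ℝ} (hρ' : 0 < ρ') (hρ : ρ' < ρ)
    (h0 : |F s0| ≤ |μ| / 2 * ρ') : ∃ u, |u - s0| ≤ ρ' ∧ F u = 0 := by
  have hμ0 : 0 < |μ| := abs_pos.2 hμ
  have hs0 : |s0 - s0| < ρ := by rw [sub_self, abs_zero]; linarith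
  have hp : |s0 + ρ' - s0| < ρ := by rw [add_sub_cancel_left, abs_of_pos hρ']; exact hρ
  have hm : |s0 - ρ' - s0| < ρ := by
    have : s0 - ρ' - s0 = -ρ' := by ring
    rw [this, abs_neg, abs_of_pos hρ']; exact hρ
  have h1 := mvt h hb hs0 hp
  have h2 := mvt h hb hs0 hm
  have e1 : s0 + ρ' - s0 = ρ' := by ring
  have e2 : s0 - ρ' - s0 = -ρ' := by ring
  rw [e1, abs_of_pos hρ'] at h1
  rw [e2, abs_neg, abs_of_pos hρ'] at h2
  rw [abs_le] at h1 h2 h0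
  have hc : ContinuousOn F (Icc (s0 - ρ') (s0 + ρ')) := by
    intro u hu
    have : |u - s0| < ρ := by
      rw [abs_lt]; constructor <;> [linarith [hu.1]; linarith [hu.2]]
    exact (h u this).continuousAt.continuousWithinAt
  have hle : s0 - ρ' ≤ s0 + ρ' := by linarith
  rcases lt_or_gt_of_ne hμ with hneg | hpos
  · rw [abs_of_neg hneg] at h1 h2 h0
    have k1 : F (s0 + ρ') ≤ 0 := by nlinarith
    have k2 : 0 ≤ F (s0 - ρ') := by nlinarith
    obtain ⟨u, hu, hu0⟩ := intermediate_value_Icc' hle hc ⟨k1, k2⟩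
    exact ⟨u, abs_le.2 ⟨by linarith [hu.1], by linarith [hu.2]⟩, hu0⟩
  · rw [abs_of_pos hpos] at h1 h2 h0
    have k1 : 0 ≤ F (s0 + ρ') := by nlinarith
    have k2 : F (s0 - ρ') ≤ 0 := by nlinarith
    obtain ⟨u, hu, hu0⟩ := intermediate_value_Icc hle hc ⟨k2, k1⟩
    exact ⟨u, abs_le.2 ⟨by linarith [hu.1], by linarith [hu.2]⟩, hu0⟩

/-- the coordinates of stage `n` along the curve -/
theorem tau_exists {δ : ℝ} {d : ℕ → ℕ} {n : ℕ} {v : ℝ × ℝ} {c : ℝ → P3} {s0 : ℝ}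
    (hv : v ∈ U) (hc : ContDiffAt ℝ 1 (fun s => tp (c s)) s0) (hS : ∀ᶠ s in 𝓝 s0, OnS δ (c s))
    (h0 : orb d (c s0) n = ze δ v) : ∃ α β : ℝ → ℝ, ContDiffAt ℝ 1 α s0 ∧ ContDiffAt ℝ 1 β s0 ∧
      α s0 = v.1 ∧ β s0 = v.2 ∧ ∀ᶠ s in 𝓝 s0, |α s| < 1 ∧
        ∀ m, (orb d (c s) (n + m)).y = Yf δ (shd d n) m (α s, β s) := by
  have hq0 : fo d n (tp (c s0)) = zh δ v := by
    unfold fo zh
    rw [pt_tp, h0]
  have hq : ContDiffAt ℝ 1 (fun s => fo d n (tp (c s))) s0 :=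
    ContDiffAt.comp (g := fo d n) s0 ((fo_smooth d n).contDiffAt.of_le (by norm_num)) hc
  have hL : ContDiffAt ℝ 1 (Lam δ v.2) (fo d n (tp (c s0))) := by
    rw [hq0]
    exact (Lam_smoothAt hv).of_le (by norm_num)
  have hτ : ContDiffAt ℝ 1 (fun s => Lam δ v.2 (fo d n (tp (c s)))) s0 :=
    ContDiffAt.comp (g := Lam δ v.2) s0 hL hq
  have hτ0 : Lam δ v.2 (fo d n (tp (c s0))) = v := by rw [hq0, Lam_zh hv]
  refine ⟨fun s => (Lam δ v.2 (fo d n (tp (c s)))).1, fun s => (Lam δ v.2 (fo d n (tp (c s)))).2,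
    contDiffAt_fst.comp s0 hτ, contDiffAt_snd.comp s0 hτ, by simp only; rw [hτ0], by
      simp only; rw [hτ0], ?_⟩
  have ht : Tendsto (fun s => fo d n (tp (c s))) (𝓝 s0) (𝓝[{q | FS δ q = 0}] (zh δ v)) := by
    refine tendsto_nhdsWithin_iff.2 ⟨?_, ?_⟩
    · rw [← hq0]
      exact hq.continuousAt
    · filter_upwards [hS] with s hs
      show FS δ (fo d n (tp (c s))) = 0
      rw [FS_fo]
      exact FS_tp.2 hs
  filter_upwards [ht.eventually (eventually_zh_Lam hv)] with s hs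
  refine ⟨hs.1, fun m => ?_⟩
  have e1 : orb d (c s) n = ze δ (Lam δ v.2 (fo d n (tp (c s)))) := by
    apply tp_inj
    have h1 : tp (ze δ (Lam δ v.2 (fo d n (tp (c s))))) = fo d n (tp (c s)) := hs.2
    rw [h1]
    unfold fo
    rw [pt_tp]
  rw [orb_add, e1]
  rfl

/-- transversality -/
theorem transv (hLip : SLip) (hD : SDt) {δ κ : ℝ} {θ : ℝ → ℝ} {d : ℕ → ℕ} (hX : Cx δ κ θ d)
    {n : ℕ} {v : ℝ × ℝ} {c : ℝ → P3} {s0 : ℝ} (hv : At δ d n v) {α β : ℝ → ℝ}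
    (hα : ContDiffAt ℝ 1 α s0) (hβ : ContDiffAt ℝ 1 β s0) (hα0 : α s0 = v.1) (hβ0 : β s0 = v.2)
    (he : ∀ᶠ s in 𝓝 s0, |α s| < 1 ∧
        ∀ m, (orb d (c s) (n + m)).y = Yf δ (shd d n) m (α s, β s)) (hU : Unb d c s0) :
    deriv β s0 - sg θ δ (shd d n) v * deriv α s0 ≠ 0 := by
  intro hz
  obtain ⟨C, hC, hL⟩ := hLip δ κ 2 |v.1| (shd d n) θ hX.hδ hX.hκ1 hX.hκ (by norm_num) hv.1
    (fun k => hX.hd _) hX.hθ
  have hL1 := (hL v le_rfl hv.2).1
  have hda := (c1_deriv hα).1.self_of_nhds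
  have hdb := (c1_deriv hβ).1.self_of_nhds
  have key : ∀ m, |deriv (fun s => (orb d (c s) (n + m)).y) s0| ≤ |deriv α s0| * C := by
    intro m
    have h1 : deriv (fun s => (orb d (c s) (n + m)).y) s0 =
        deriv (fun s => Yf δ (shd d n) m (α s, β s)) s0 :=
      (EventuallyEq.deriv_eq (he.mono fun s hs => hs.2 m))
    have hY : HasFDerivAt (Yf δ (shd d n) m) (fderiv ℝ (Yf δ (shd d n) m) v) (α s0, β s0) := by
      rw [hα0, hβ0]
      exact (((hD δ (shd d n) m).1.contDiffAt (Pool.Agent.H551.TmLEAF.isOpen_U.mem_nhds hv.1)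
        ).differentiableAt (by norm_num)).hasFDerivAt
    have h2 := hY.comp_hasDerivAt s0 (hda.prodMk hdb)
    have h3 : deriv (fun s => Yf δ (shd d n) m (α s, β s)) s0 =
        fderiv ℝ (Yf δ (shd d n) m) v (deriv α s0, deriv β s0) := h2.deriv
    rw [h1, h3, fderiv_split]
    have h4 : deriv α s0 * dz (Yf δ (shd d n) m) v + deriv β s0 * dt (Yf δ (shd d n) m) v =
        deriv α s0 * (dz (Yf δ (shd d n) m) v + sg θ δ (shd d n) v * dt (Yf δ (shd d n) m) v) := by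
      linear_combination (dt (Yf δ (shd d n) m) v) * hz
    rw [h4, abs_mul]
    exact mul_le_mul_of_nonneg_left (hL1 m) (abs_nonneg _)
  obtain ⟨M, hM⟩ := hU (max (|deriv α s0| * C)
    (∑ i ∈ Finset.range n, |deriv (fun s => (orb d (c s) i).y) s0|))
  by_cases hMn : M < n
  · have h1 : |deriv (fun s => (orb d (c s) M).y) s0| ≤
        ∑ i ∈ Finset.range n, |deriv (fun s => (orb d (c s) i).y) s0| :=
      Finset.single_le_sum (f := fun i => |deriv (fun s => (orb d (c s) i).y) s0|)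
        (fun i _ => abs_nonneg _) (Finset.mem_range.2 hMn)
    have h2 := (le_max_right (|deriv α s0| * C)
      (∑ i ∈ Finset.range n, |deriv (fun s => (orb d (c s) i).y) s0|)).trans_lt hM
    linarith
  · obtain ⟨m, rfl⟩ := Nat.exists_eq_add_of_le (Nat.le_of_not_lt hMn)
    have h2 := (le_max_left (|deriv α s0| * C)
      (∑ i ∈ Finset.range n, |deriv (fun s => (orb d (c s) i).y) s0|)).trans_lt hM
    linarith [key m]

/-- zero curves near `v` are transversal to the curve `(α, β)` -/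
theorem key (hF : SField) (hG : GLevels) {δ κ : ℝ} {θ : ℝ → ℝ} {e : ℕ → ℕ} (hX : Cx δ κ θ e)
    {v : ℝ × ℝ} (hv : v ∈ U) {α β : ℝ → ℝ} {s0 : ℝ} (hα : ContDiffAt ℝ 1 α s0)
    (hβ : ContDiffAt ℝ 1 β s0) (hα0 : α s0 = v.1) {μ : ℝ} (hμ : μ ≠ 0)
    (hμe : μ = deriv β s0 - sg θ δ e v * deriv α s0) :
    ∃ r, |v.1| < r ∧ r < 1 ∧ ∃ ρ > 0, ∃ σ > 0, ∃ m1, 3 ≤ m1 ∧ (∀ u, |u - s0| < ρ → |α u| ≤ r) ∧
      ∃ L, 0 < L ∧ (∀ m ≥ m1, ∀ ϑ, Lev δ e m ϑ → ∀ z z', |z| ≤ r → |z'| ≤ r →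
        |ϑ z - ϑ z'| ≤ L * |z - z'|) ∧
      ∀ m ≥ m1, ∀ ϑ, Lev δ e m ϑ → ∀ z1, |z1| ≤ r → |z1 - v.1| < σ → |ϑ z1 - v.2| < σ →
        ∃ F' : ℝ → ℝ, ∀ u, |u - s0| < ρ →
          HasDerivAt (fun u => β u - ϑ (α u)) (F' u) u ∧ |F' u - μ| ≤ |μ| / 2 := by
  have hv1 : |v.1| < 1 := hv
  obtain ⟨r, hr⟩ : ∃ r, r = (1 + |v.1|) / 2 := ⟨_, rfl⟩
  have hr0 : |v.1| < r := by rw [hr]; linarith
  have hr1 : r < 1 := by rw [hr]; linarith
  obtain ⟨f1, f2, -⟩ := hF δ κ e θ hX.hδ hX.hκ1 hX.hκ hX.hd hX.hθ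
  obtain ⟨B, hB⟩ := (Pool.Agent.H551.TmLEAF.fld_of_C1 f1 f2).lip r hr1
  obtain ⟨-, hG2⟩ := hG δ κ θ e hX
  obtain ⟨K, hK, -, -, hK3⟩ := hG2 r hr1
  have hμ0 : 0 < |μ| := abs_pos.2 hμ
  -- constants
  obtain ⟨a0, ha0⟩ : ∃ a0, a0 = deriv α s0 := ⟨_, rfl⟩
  obtain ⟨g0, hg0⟩ : ∃ g0, g0 = sg θ δ e v := ⟨_, rfl⟩
  obtain ⟨D, hDd⟩ : ∃ D, D = 1 + 2 * (|a0| + 1) + |g0| := ⟨_, rfl⟩
  have hD0 : 0 < D := by rw [hDd]; positivity
  obtain ⟨e1, he1d⟩ : ∃ e1, e1 = min 1 (|μ| / 2 / D) := ⟨_, rfl⟩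
  have he10 : 0 < e1 := by rw [he1d]; exact lt_min one_pos (by positivity)
  have he11 : e1 ≤ 1 := by rw [he1d]; exact min_le_left _ _
  have he12 : e1 * D ≤ |μ| / 2 := by
    have : e1 ≤ |μ| / 2 / D := by rw [he1d]; exact min_le_right _ _
    rwa [le_div_iff₀ hD0] at this
  obtain ⟨L, hLd⟩ : ∃ L : ℝ, L = B + K + 1 := ⟨_, rfl⟩
  have hL0 : 0 < L := by rw [hLd]; positivity
  -- continuity of the field
  have hgc : ContinuousAt (sg θ δ e) v :=
    (f1.contDiffAt (Pool.Agent.H551.TmLEAF.isOpen_U.mem_nhds hv)).continuousAt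
  obtain ⟨σ1, hσ1, hσ⟩ := Metric.continuousAt_iff.1 hgc e1 he10
  obtain ⟨σ, hσd⟩ : ∃ σ, σ = σ1 / (4 * (L + 1)) := ⟨_, rfl⟩
  have hσ0 : 0 < σ := by rw [hσd]; positivity
  have hσL : (2 * L + 1) * σ < σ1 := by
    rw [hσd, ← mul_div_assoc, div_lt_iff₀ (by positivity)]
    nlinarith
  have hσle : σ < σ1 := by nlinarith
  -- neighbourhood
  obtain ⟨cα1, cα2⟩ := c1_deriv hα
  obtain ⟨cβ1, cβ2⟩ := c1_deriv hβ
  have hev : ∀ᶠ u in 𝓝 s0, HasDerivAt α (deriv α u) u ∧ HasDerivAt β (deriv β u) u ∧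
      |deriv α u - a0| < e1 ∧ |deriv β u - deriv β s0| < e1 ∧ |α u| < r ∧ |α u - v.1| < σ := by
    have t1 : ∀ᶠ u in 𝓝 s0, |deriv α u - a0| < e1 := by
      have := Metric.tendsto_nhds.1 cα2 e1 he10
      rw [ha0]
      simpa only [Real.dist_eq] using this
    have t2 : ∀ᶠ u in 𝓝 s0, |deriv β u - deriv β s0| < e1 := by
      have := Metric.tendsto_nhds.1 cβ2 e1 he10
      simpa only [Real.dist_eq] using this
    have t3 : ∀ᶠ u in 𝓝 s0, |α u| < r := by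
      have h := hα.continuousAt.abs
      exact h.eventually_lt continuousAt_const (by rw [hα0]; exact hr0)
    have t4 : ∀ᶠ u in 𝓝 s0, |α u - v.1| < σ := by
      have := Metric.tendsto_nhds.1 hα.continuousAt σ hσ0
      rw [hα0] at this
      simpa only [Real.dist_eq] using this
    filter_upwards [cα1, cβ1, t1, t2, t3, t4] with u h1 h2 h3 h4 h5 h6
    exact ⟨h1, h2, h3, h4, h5, h6⟩
  obtain ⟨ρ, hρ, hev'⟩ := Metric.eventually_nhds_iff.1 hev
  simp only [Real.dist_eq] at hev'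
  obtain ⟨N, hN⟩ := pow_unbounded_of_one_lt (K / e1) (by norm_num : (1 : ℝ) < 2)
  have hslope : ∀ m ≥ 2 * N + 3, ∀ ϑ, Lev δ e m ϑ → ∀ z, |z| ≤ r →
      |sl (Yf δ e m) (z, ϑ z) - sg θ δ e (z, ϑ z)| ≤ e1 := by
    intro m hm ϑ hϑ z hz
    have h1 := hK3 m (by omega) ϑ hϑ z hz
    have h2 : (2 : ℝ) ^ N ≤ 2 ^ (m / 2) := pow_le_pow_right₀ (by norm_num) (by omega)
    have h3 : K < e1 * 2 ^ N := by
      rw [div_lt_iff₀ he10] at hN
      linarith
    have h4 : (0 : ℝ) < 2 ^ N := by positivity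
    have h5 : |sl (Yf δ e m) (z, ϑ z) - sg θ δ e (z, ϑ z)| * 2 ^ N < e1 * 2 ^ N :=
      lt_of_le_of_lt (le_trans (mul_le_mul_of_nonneg_left h2 (abs_nonneg _)) h1) h3
    exact (lt_of_mul_lt_mul_right h5 h4.le).le
  have hLL : ∀ m ≥ 2 * N + 3, ∀ ϑ, Lev δ e m ϑ → ∀ z z', |z| ≤ r → |z'| ≤ r →
        |ϑ z - ϑ z'| ≤ L * |z - z'| := by
    intro m hm ϑ hϑ z z' hz hz'
    have h := (convex_Icc (-r) r).norm_image_sub_le_of_norm_hasDerivWithin_le
      (f := ϑ) (f' := fun z => sl (Yf δ e m) (z, ϑ z)) (C := L)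
      (fun x hx => (hϑ x (lt_of_le_of_lt (abs_le.2 ⟨hx.1, hx.2⟩) hr1)).1.hasDerivWithinAt)
      (fun x hx => by
        have hx' : |x| ≤ r := abs_le.2 ⟨hx.1, hx.2⟩
        have h1 := hslope m hm ϑ hϑ x hx'
        have h2 := (hB x hx').1 (ϑ x)
        have h3 := abs_sub_abs_le_abs_sub (sl (Yf δ e m) (x, ϑ x)) (sg θ δ e (x, ϑ x))
        rw [Real.norm_eq_abs, hLd]
        linarith) (abs_le.1 hz') (abs_le.1 hz)
    simpa only [Real.norm_eq_abs] using h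
  refine ⟨r, hr0, hr1, ρ, hρ, σ, hσ0, 2 * N + 3, by omega,
    fun u hu => (hev' hu).2.2.2.2.1.le, L, hL0, hLL, ?_⟩
  intro m hm ϑ hϑ z1 hz1 hz1v hϑz1
  refine ⟨fun u => deriv β u - sl (Yf δ e m) (α u, ϑ (α u)) * deriv α u, fun u hu => ?_⟩
  obtain ⟨k1, k2, k3, k4, k5, k6⟩ := hev' hu
  refine ⟨?_, ?_⟩
  · have h1 := (hϑ (α u) (k5.trans hr1)).1.comp u k1
    exact k2.sub h1
  · have hnear : |ϑ (α u) - v.2| < σ1 := by
      have h1 := hLL m hm ϑ hϑ (α u) z1 k5.le hz1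
      have h2 : |α u - z1| ≤ |α u - v.1| + |z1 - v.1| := by
        have : α u - z1 = (α u - v.1) - (z1 - v.1) := by ring
        rw [this]
        exact abs_sub _ _
      have h3 : |ϑ (α u) - v.2| ≤ |ϑ (α u) - ϑ z1| + |ϑ z1 - v.2| := by
        have : ϑ (α u) - v.2 = (ϑ (α u) - ϑ z1) + (ϑ z1 - v.2) := by ring
        rw [this]
        exact abs_add_le _ _
      have h4 : L * |α u - z1| ≤ L * (2 * σ) := by
        apply mul_le_mul_of_nonneg_left _ hL0.le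
        linarith
      linarith
    have hsg : |sg θ δ e (α u, ϑ (α u)) - g0| < e1 := by
      have h1 : dist ((α u, ϑ (α u)) : ℝ × ℝ) v < σ1 := by
        rw [Prod.dist_eq, Real.dist_eq, Real.dist_eq]
        exact max_lt (k6.trans hσle) hnear
      have := hσ h1
      rwa [Real.dist_eq, ← hg0] at this
    have hsl := hslope m hm ϑ hϑ (α u) k5.le
    have hS : |sl (Yf δ e m) (α u, ϑ (α u)) - g0| ≤ 2 * e1 := by
      have : sl (Yf δ e m) (α u, ϑ (α u)) - g0 =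
          (sl (Yf δ e m) (α u, ϑ (α u)) - sg θ δ e (α u, ϑ (α u))) +
          (sg θ δ e (α u, ϑ (α u)) - g0) := by ring
      rw [this]
      refine (abs_add_le _ _).trans ?_
      linarith
    have hda : |deriv α u| ≤ |a0| + 1 := by
      have := abs_sub_abs_le_abs_sub (deriv α u) a0
      linarith
    have e2 : deriv β u - sl (Yf δ e m) (α u, ϑ (α u)) * deriv α u - μ =
        (deriv β u - deriv β s0) - (sl (Yf δ e m) (α u, ϑ (α u)) - g0) * deriv α u -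
          g0 * (deriv α u - a0) := by
      rw [hμe, ← hg0, ← ha0]; ring
    rw [e2]
    have h1 : |(sl (Yf δ e m) (α u, ϑ (α u)) - g0) * deriv α u| ≤ 2 * e1 * (|a0| + 1) := by
      rw [abs_mul]
      exact mul_le_mul hS hda (abs_nonneg _) (by positivity)
    have h2 : |g0 * (deriv α u - a0)| ≤ |g0| * e1 := by
      rw [abs_mul]
      exact mul_le_mul_of_nonneg_left k3.le (abs_nonneg _)
    have h3 := abs_sub ((deriv β u - deriv β s0) -
      (sl (Yf δ e m) (α u, ϑ (α u)) - g0) * deriv α u) (g0 * (deriv α u - a0))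
    have h4 := abs_sub (deriv β u - deriv β s0)
      ((sl (Yf δ e m) (α u, ϑ (α u)) - g0) * deriv α u)
    have h5 : e1 + 2 * e1 * (|a0| + 1) + |g0| * e1 = e1 * D := by rw [hDd]; ring
    linarith

theorem tGSw (hG : GLevels) (hF : SField) (hLip : SLip) (_hC : SCoord) (hD : SDt) : GSw := by
  intro δ κ θ d hX n v c s0 hv hc hS h0 hU
  obtain ⟨α, β, hα, hβ, hα0, hβ0, he⟩ := tau_exists hv.1 hc hS h0
  have hμ := transv hLip hD hX hv hα hβ hα0 hβ0 he hU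
  obtain ⟨μ, hμe⟩ : ∃ μ, μ = deriv β s0 - sg θ δ (shd d n) v * deriv α s0 := ⟨_, rfl⟩
  rw [← hμe] at hμ
  have hμ0 : 0 < |μ| := abs_pos.2 hμ
  obtain ⟨r, hr0, hr1, ρ, hρ, σ, hσ, m1, hm1, hαr, L, hL, hLL, hkey⟩ :=
    key hF hG (cx_shd hX n) hv.1 hα hβ hα0 hμ hμe
  obtain ⟨hG1, hG2⟩ := hG δ κ θ (shd d n) (cx_shd hX n)
  obtain ⟨K, hK, hK2, -, -⟩ := hG2 r hr1
  obtain ⟨ρ0, hρ0, heq⟩ := Metric.eventually_nhds_iff.1 he
  simp only [Real.dist_eq] at heq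
  constructor
  · refine ⟨2 * K / |μ|, by positivity, fun ε hε => ?_⟩
    have hev : ∀ᶠ s in 𝓝 s0, |α s - v.1| < min σ (ε / (2 * (L + 1))) ∧
        |β s - v.2| < min σ (ε / 2) ∧ |s - s0| < min ρ ρ0 := by
      have t1 := Metric.tendsto_nhds.1 hα.continuousAt (min σ (ε / (2 * (L + 1))))
        (lt_min hσ (by positivity))
      have t2 := Metric.tendsto_nhds.1 hβ.continuousAt (min σ (ε / 2))
        (lt_min hσ (by positivity))
      have t3 : ∀ᶠ s in 𝓝 s0, dist s s0 < min ρ ρ0 := Metric.ball_mem_nhds s0 (lt_min hρ hρ0)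
      rw [hα0] at t1
      rw [hβ0] at t2
      simp only [Real.dist_eq] at t1 t2 t3
      filter_upwards [t1, t2, t3] with s h1 h2 h3
      exact ⟨h1, h2, h3⟩
    obtain ⟨η, hη, hev'⟩ := Metric.eventually_nhds_iff.1 hev
    simp only [Real.dist_eq] at hev'
    refine ⟨η, hη, n + m1, fun M hM => ?_⟩
    obtain ⟨m, rfl⟩ := Nat.exists_eq_add_of_le (le_trans (Nat.le_add_right n m1) hM)
    have hm : m1 ≤ m := by omega
    have hch : ∀ s, ∃ ϑ : ℝ → ℝ, |s - s0| < η → ZM d (n + m) c s →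
        Lev δ (shd d n) m ϑ ∧ ϑ (α s) = β s := by
      intro s
      by_cases hs : |s - s0| < η ∧ ZM d (n + m) c s
      · obtain ⟨hs1, hs2⟩ := hs
        obtain ⟨-, -, k3⟩ := hev' hs1
        obtain ⟨k4, k5⟩ := heq (k3.trans_le (min_le_right _ _))
        obtain ⟨ϑ, h1, h2⟩ := hG1 m (by omega) (α s, β s) k4 (by rw [← k5 m]; exact hs2)
        exact ⟨ϑ, fun _ _ => ⟨h2, h1⟩⟩
      · exact ⟨fun _ => 0, fun h1 h2 => absurd ⟨h1, h2⟩ hs⟩
    choose T hT using hch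
    refine ⟨fun s => T s v.1, fun s hs hZ => ?_⟩
    obtain ⟨h1, h2⟩ := hT s hs hZ
    obtain ⟨k1, k2, k3⟩ := hev' hs
    have k3ρ := k3.trans_le (min_le_left _ _)
    have hαs := hαr s k3ρ
    refine ⟨?_, ?_, ?_⟩
    · have h3 := hLL m hm (T s) h1 v.1 (α s) hr0.le hαs
      rw [h2] at h3
      have h4 : |T s v.1 - v.2| ≤ |T s v.1 - β s| + |β s - v.2| := by
        have : T s v.1 - v.2 = (T s v.1 - β s) + (β s - v.2) := by ring
        rw [this]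
        exact abs_add_le _ _
      have h5 : L * |v.1 - α s| ≤ L * (ε / (2 * (L + 1))) := by
        apply mul_le_mul_of_nonneg_left _ hL.le
        rw [abs_sub_comm]
        exact (k1.trans_le (min_le_right _ _)).le
      have h6 : L * (ε / (2 * (L + 1))) ≤ ε / 2 := by
        rw [← mul_div_assoc, div_le_div_iff₀ (by positivity) (by norm_num)]
        nlinarith
      have h7 := k2.trans_le (min_le_right _ _)
      linarith
    · rw [ZM_vc]
      exact (h1 v.1 hv.1).2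
    · intro s' hs' hZ'
      obtain ⟨h3, h4⟩ := hT s' hs' hZ'
      obtain ⟨k1', k2', k3'⟩ := hev' hs'
      have k3ρ' := k3'.trans_le (min_le_left _ _)
      have hαs' := hαr s' k3ρ'
      obtain ⟨F', hF'⟩ := hkey m hm (T s) h1 (α s) hαs (k1.trans_le (min_le_left _ _))
        (by rw [h2]; exact k2.trans_le (min_le_left _ _))
      have h5 := lo (fun u hu => (hF' u hu).1) (fun u hu => (hF' u hu).2) k3ρ k3ρ'
      simp only [h2, sub_self, sub_zero] at h5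
      rw [← h4] at h5
      have h6 := hK2 m (by omega) (T s) (T s') h1 h3 (α s') v.1 hαs' hr0.le
      have h7 : |μ| / 2 * |s' - s| ≤ K * |T s' v.1 - T s v.1| := h5.trans h6
      rw [abs_sub_comm s s', abs_sub_comm (T s v.1), div_mul_eq_mul_div, le_div_iff₀ hμ0]
      linarith
  · refine ⟨2 * |μ| * K, by positivity, fun ε hε => ?_⟩
    obtain ⟨ρ', hρ'd⟩ : ∃ ρ', ρ' = min (min ρ ρ0 / 2) (ε / 2) := ⟨_, rfl⟩
    have hρ'0 : 0 < ρ' := by
      rw [hρ'd]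
      exact lt_min (by have := lt_min hρ hρ0; positivity) (by positivity)
    have hmin := lt_min hρ hρ0
    have hρ'1 : ρ' < min ρ ρ0 := by
      rw [hρ'd]
      exact (min_le_left _ _).trans_lt (by linarith)
    have hρ'2 : ρ' < ε := by
      rw [hρ'd]
      exact (min_le_right _ _).trans_lt (by linarith)
    refine ⟨min σ (|μ| / 2 * ρ'), lt_min hσ (by positivity), n + m1, fun M hM => ?_⟩
    obtain ⟨m, rfl⟩ := Nat.exists_eq_add_of_le (le_trans (Nat.le_add_right n m1) hM)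
    have hm : m1 ≤ m := by omega
    have hkey2 : ∀ t, |t - v.2| < min σ (|μ| / 2 * ρ') → ∀ ϑ : ℝ → ℝ,
        Lev δ (shd d n) m ϑ → ϑ v.1 = t → ∃ F' : ℝ → ℝ, ∀ u, |u - s0| < ρ →
          HasDerivAt (fun u => β u - ϑ (α u)) (F' u) u ∧ |F' u - μ| ≤ |μ| / 2 := by
      intro t ht ϑ hϑ hϑt
      exact hkey m hm ϑ hϑ v.1 hr0.le (by rw [sub_self, abs_zero]; exact hσ)
        (by rw [hϑt]; exact ht.trans_le (min_le_left _ _))
    have hch : ∀ t, ∃ (ϑ : ℝ → ℝ) (u : ℝ), |t - v.2| < min σ (|μ| / 2 * ρ') →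
        ZM d (n + m) (vc δ d n v) t → Lev δ (shd d n) m ϑ ∧ ϑ v.1 = t ∧ |u - s0| ≤ ρ' ∧
          β u - ϑ (α u) = 0 := by
      intro t
      by_cases hs : |t - v.2| < min σ (|μ| / 2 * ρ') ∧ ZM d (n + m) (vc δ d n v) t
      · obtain ⟨ht, hZ⟩ := hs
        rw [ZM_vc] at hZ
        obtain ⟨ϑ, h1, h2⟩ := hG1 m (by omega) (v.1, t) hv.1 hZ
        obtain ⟨F', hF'⟩ := hkey2 t ht ϑ h2 h1
        obtain ⟨u, hu1, hu2⟩ := zero hμ (fun u hu => (hF' u hu).1) (fun u hu => (hF' u hu).2)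
          hρ'0 (hρ'1.trans_le (min_le_left _ _)) (by
            simp only [hα0, hβ0]
            have h1' : ϑ v.1 = t := h1
            rw [h1', abs_sub_comm]
            exact (ht.trans_le (min_le_right _ _)).le)
        exact ⟨ϑ, u, fun _ _ => ⟨h2, h1, hu1, hu2⟩⟩
      · exact ⟨fun _ => 0, 0, fun h1 h2 => absurd ⟨h1, h2⟩ hs⟩
    choose T h hT using hch
    refine ⟨h, fun t ht hZ => ?_⟩
    obtain ⟨h1, h2, h3, h4⟩ := hT t ht hZ
    have hu0 : |h t - s0| < min ρ ρ0 := h3.trans_lt hρ'1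
    refine ⟨h3.trans_lt hρ'2, ?_, ?_⟩
    · obtain ⟨k4, k5⟩ := heq (hu0.trans_le (min_le_right _ _))
      unfold ZM
      rw [k5 m, sub_eq_zero.1 h4]
      exact (h1 (α (h t)) k4).2
    · intro t' ht' hZ'
      obtain ⟨h1', h2', h3', h4'⟩ := hT t' ht' hZ'
      have hu0' : |h t' - s0| < min ρ ρ0 := h3'.trans_lt hρ'1
      obtain ⟨F', hF'⟩ := hkey2 t' ht' (T t') h1' h2'
      have h5 := up (fun u hu => (hF' u hu).1) (fun u hu => (hF' u hu).2)
        (hu0'.trans_le (min_le_left _ _)) (hu0.trans_le (min_le_left _ _))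
      rw [h4', sub_zero, sub_eq_zero.1 h4] at h5
      have h6 := hK2 m (by omega) (T t') (T t) h1' h1 v.1 (α (h t)) hr0.le
        (hαr _ (hu0.trans_le (min_le_left _ _)))
      rw [h2, h2'] at h6
      have h7 : K * |T t (α (h t)) - T t' (α (h t))| ≤ K * (2 * |μ| * |h t - h t'|) :=
        mul_le_mul_of_nonneg_left h5 hK.le
      linarith

end Pool.Agent.H551.GiSw
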