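import Pool.Agent.H743.JL.StmC
import Pool.Agent.H743.X17.SYSB

/-! JL (helper743), task TA: the entries between large primes. -/

set_option autoImplicit false

open scoped Classical

namespace Pool.Agent.H551.JLTA

open Pool.Agent.H743.JL
open Pool.Agent.H743.X17 (Sys Rt RS LL lS al nu pd lam up)
open Pool.Agent.H743.X17.QSYSB
open Pool.Agent.N973.ND (uu)

theorem f4_uu (p : ℕ) : f4 (p : ℤ) = uu p := by
  unfold f4 uu
  by_cases h : p % 4 = 3
  · rw [if_pos h, if_pos (by omega)]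
  · rw [if_neg h, if_neg (by omega)]

theorem chi_aj (t : ℤ) (p : ℕ) : chi t p = aj p t := rfl

/-- the factorisation of `tw` -/
theorem tw_fac {t n : ℤ} (ht : Squarefree t) :
    ∃ g t' n' : ℤ, g ≠ 0 ∧ t = g * t' ∧ n = g * n' ∧ IsCoprime t' n' ∧ tw t n = t' * n' := by
  have hg : Int.gcd t n ≠ 0 := fun h => ht.ne_zero (Int.gcd_eq_zero_iff.1 h).1
  have hg' : ((Int.gcd t n : ℕ) : ℤ) ≠ 0 := by exact_mod_cast hg
  obtain ⟨t', ht'⟩ := Int.gcd_dvd_left t n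
  obtain ⟨n', hn'⟩ := Int.gcd_dvd_right t n
  refine ⟨(Int.gcd t n : ℤ), t', n', hg', ht', hn', ?_, ?_⟩
  · rw [Int.isCoprime_iff_gcd_eq_one]
    have h1 := Int.gcd_div_gcd_div_gcd (i := t) (j := n) (Nat.pos_of_ne_zero hg)
    have h2 : t / (Int.gcd t n : ℤ) = t' := Int.ediv_eq_of_eq_mul_right hg' ht'
    have h3 : n / (Int.gcd t n : ℤ) = n' := Int.ediv_eq_of_eq_mul_right hg' hn'
    rw [h2, h3] at h1
    exact h1
  · unfold tw
    apply Int.ediv_eq_of_eq_mul_right (pow_ne_zero 2 hg')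
    calc t * n = ((Int.gcd t n : ℤ) * t') * ((Int.gcd t n : ℤ) * n') := by rw [← ht', ← hn']
      _ = _ := by ring

theorem tw_sq {t' n' g : ℤ} (hc : IsCoprime t' n') (ht : Squarefree (g * t'))
    (hn : Squarefree (g * n')) : Squarefree (t' * n') := by
  rw [squarefree_mul_iff]
  exact ⟨hc.isRelPrime, ht.of_mul_right, hn.of_mul_right⟩

theorem part1 (t n : ℤ) (p : ℕ) (ht : Squarefree t) (hn : Squarefree n) (hp : p.Prime)
    (hp2 : p ≠ 2) (hpn : (p : ℤ) ∣ n) (hpt : ¬ (p : ℤ) ∣ t) :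
    LL (tw t n) p p = (lam p n + uu p) + chi t p := by
  obtain ⟨g, t', n', hg, et, en, hc, hm⟩ := tw_fac (n := n) ht
  have hpp := Nat.prime_iff_prime_int.1 hp
  have hp0 : (p : ℤ) ≠ 0 := hpp.ne_zero
  have hsq : Squarefree (tw t n) := by
    rw [hm]
    exact tw_sq hc (et ▸ ht) (en ▸ hn)
  have hpg : ¬ (p : ℤ) ∣ g := fun h => hpt (et ▸ Dvd.dvd.mul_right h t')
  have hpt' : ¬ (p : ℤ) ∣ t' := fun h => hpt (et ▸ Dvd.dvd.mul_left h g)
  have hpn' : (p : ℤ) ∣ n' := by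
    rw [en] at hpn
    exact (hpp.dvd_or_dvd hpn).resolve_left hpg
  obtain ⟨k, hk⟩ := hpn'
  have hpk : ¬ (p : ℤ) ∣ k := by
    rintro ⟨l, hl⟩
    have h1 : (p : ℤ) * p ∣ n := ⟨g * l, by rw [en, hk, hl]; ring⟩
    exact hpp.not_isUnit (hn _ h1)
  have hmem : p ∈ RS (tw t n) :=
    (mem_RS hsq).2 ⟨hp, Or.inl (by rw [hm, hk]; exact ⟨t' * k, by ring⟩)⟩
  rw [diag_odd hsq hmem hp2, f4_uu, lam_eq, lam_eq, chi_aj]
  have e1 : up p (tw t n) = t' * k := by
    unfold up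
    rw [if_pos (by rw [hm, hk]; exact ⟨t' * k, by ring⟩)]
    apply Int.ediv_eq_of_eq_mul_right hp0
    rw [hm, hk]
    ring
  have e2 : up p n = g * k := by
    unfold up
    rw [if_pos hpn]
    apply Int.ediv_eq_of_eq_mul_right hp0
    rw [en, hk]
    ring
  rw [e1, e2, aj_mul hp hpt' hpk, aj_mul hp hpg hpk]
  have e3 : aj p t = aj p g + aj p t' := by
    conv_lhs => rw [et]
    exact aj_mul hp hpg hpt'
  rw [e3]
  have := z2_add_self (aj p g)
  linear_combination (-1 : ZMod 2) * this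

theorem part2 (m m' : ℤ) (p q : ℕ) (hq : q ≠ 2) (hne : p ≠ q) : LL m p q = LL m' p q := by
  rw [LL_off hne, LL_off hne]
  have h : pd m q = pd m' q := by
    unfold pd
    rw [if_neg hq, if_neg hq]
  unfold lS
  rw [h]

theorem part3 (m : ℤ) (p q : ℕ) (hp : p.Prime) (hq : q.Prime) (hp2 : p ≠ 2) (hq2 : q ≠ 2)
    (hne : p ≠ q) : LL m p q + LL m q p = uu p * uu q := by
  rw [LL_off hne, LL_off (Ne.symm hne), rel_odd hp hp2 hq hq2 hne, al_odd hp hp2, al_odd hq hq2,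
    f4_uu, f4_uu]

theorem t_TA : S_TA :=
  ⟨fun t n p ht hn _ hp hp2 hpn hpt => part1 t n p ht hn hp hp2 hpn hpt, part2,
    fun m p q hp hq hp2 hq2 hne => part3 m p q hp hq hp2 hq2 hne⟩

end Pool.Agent.H551.JLTA
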