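import Pool.Agent.H440.OZ.Stm

/-!
Project OZ (helper440), leaf 2: the model has tiny additive sums at fractions with denominator
larger than `R`.
-/

set_option autoImplicit false

open Complex Filter Topology MeasureTheory Set

namespace Pool.Agent.H551.OZ

open Pool.Agent.H440.OZ
open H385 (ee)

theorem eeadd (x y : ℝ) : ee (x + y) = ee x * ee y := by
  unfold ee
  rw [← Complex.exp_add]
  push_cast
  ring_nf

theorem eenorm (x : ℝ) : ‖ee x‖ = 1 := by
  unfold ee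
  have h : (2 * Real.pi * I * x : ℂ) = ((2 * Real.pi * x : ℝ) : ℂ) * I := by
    push_cast
    ring
  rw [h, Complex.norm_exp_ofReal_mul_I]

theorem eenat (n : ℕ) (x : ℝ) : ee (n * x) = ee x ^ n := by
  unfold ee
  rw [← Complex.exp_nat_mul]
  push_cast
  ring_nf

theorem ee_nat_one (n : ℕ) : ee (n : ℝ) = 1 := by
  unfold ee
  rw [Complex.exp_eq_one_iff]
  exact ⟨n, by push_cast; ring⟩

theorem dvd_of_ee {N M : ℕ} (hM : 0 < M) (h : ee ((N : ℝ) / M) = 1) : M ∣ N := by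
  unfold ee at h
  rw [Complex.exp_eq_one_iff] at h
  obtain ⟨n, hn⟩ := h
  have h2 : (2 * Real.pi * I : ℂ) ≠ 0 := Complex.two_pi_I_ne_zero
  have h3 : (((N : ℝ) / M : ℝ) : ℂ) = (n : ℂ) := by
    have h4 : (2 * Real.pi * I : ℂ) * (((N : ℝ) / M : ℝ) : ℂ) = (2 * Real.pi * I : ℂ) * n := by
      rw [hn]
      ring
    exact mul_left_cancel₀ h2 h4
  have h5 : ((N : ℝ) / M : ℝ) = (n : ℝ) := by
    have h6 : (((N : ℝ) / M : ℝ) : ℂ) = ((n : ℝ) : ℂ) := by
      rw [h3]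
      push_cast
      rfl
    exact_mod_cast h6
  have hM' : (M : ℝ) ≠ 0 := by positivity
  rw [div_eq_iff hM'] at h5
  have h7 : (N : ℤ) = n * M := by exact_mod_cast h5
  exact Int.natCast_dvd_natCast.1 ⟨n, by rw [h7]; ring⟩

theorem geo_zero {z : ℂ} {M : ℕ} (hzM : z ^ M = 1) (hz1 : z ≠ 1) :
    ∑ j ∈ Finset.range M, z ^ j = 0 := by
  have h1 := mul_geom_sum z M
  rw [hzM, sub_self] at h1
  rcases mul_eq_zero.1 h1 with h2 | h2
  · exact absurd (sub_eq_zero.1 h2) hz1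
  · exact h2

theorem one_sub_pow {z : ℂ} (hz : ‖z‖ = 1) (j : ℕ) : ‖1 - z ^ j‖ ≤ j * ‖1 - z‖ := by
  induction j with
  | zero => simp
  | succ j ih =>
    have h1 : 1 - z ^ (j + 1) = (1 - z ^ j) + z ^ j * (1 - z) := by ring
    rw [h1]
    refine (norm_add_le _ _).trans ?_
    rw [norm_mul, norm_pow, hz, one_pow, one_mul]
    push_cast
    linarith

theorem root_lower {z : ℂ} {M : ℕ} (hM : 0 < M) (hz : ‖z‖ = 1) (hzM : z ^ M = 1) (hz1 : z ≠ 1) :
    1 / (M : ℝ) ≤ ‖1 - z‖ := by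
  have hM' : (0 : ℝ) < M := by exact_mod_cast hM
  have h1 : ∑ j ∈ Finset.range M, (1 - z ^ j) = (M : ℂ) := by
    rw [Finset.sum_sub_distrib, geo_zero hzM hz1, sub_zero]
    simp
  have h2 : (M : ℝ) ≤ M * (M * ‖1 - z‖) := by
    calc (M : ℝ) = ‖(M : ℂ)‖ := by simp
      _ = ‖∑ j ∈ Finset.range M, (1 - z ^ j)‖ := by rw [h1]
      _ ≤ ∑ j ∈ Finset.range M, ‖1 - z ^ j‖ := norm_sum_le _ _
      _ ≤ ∑ _j ∈ Finset.range M, M * ‖1 - z‖ := by
          refine Finset.sum_le_sum fun j hj => (one_sub_pow hz j).trans ?_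
          refine mul_le_mul_of_nonneg_right ?_ (norm_nonneg _)
          exact_mod_cast (Finset.mem_range.1 hj).le
      _ = M * (M * ‖1 - z‖) := by
          rw [Finset.sum_const, Finset.card_range, nsmul_eq_mul]
  rw [div_le_iff₀ hM']
  have h3 : 1 ≤ M * ‖1 - z‖ := le_of_mul_le_mul_left (by linarith) hM'
  linarith

theorem ee_pow (N M : ℕ) (hM : 0 < M) : ee ((N : ℝ) / M) ^ M = 1 := by
  have hM' : (M : ℝ) ≠ 0 := by positivity
  rw [← eenat, mul_div_cancel₀ _ hM', ee_nat_one]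

/-- detecting divisibility -/
theorem detect (n d : ℕ) (hd : 0 < d) :
    ∑ j ∈ Finset.range d, ee (n * ((j : ℝ) / d)) = if d ∣ n then (d : ℂ) else 0 := by
  have h1 : ∀ j : ℕ, ee (n * ((j : ℝ) / d)) = ee ((n : ℝ) / d) ^ j := by
    intro j
    rw [← eenat]
    congr 1
    ring
  simp_rw [h1]
  split_ifs with h
  · obtain ⟨m, rfl⟩ := h
    have hd' : (d : ℝ) ≠ 0 := by positivity
    have h2 : (((d * m : ℕ) : ℝ)) / d = (m : ℝ) := by
      push_cast
      field_simp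
    rw [h2, ee_nat_one]
    simp
  · exact geo_zero (ee_pow n d hd) fun h2 => h (dvd_of_ee hd h2)

theorem Ew_bound (u y : ℝ) (n : ℕ) :
    ‖Ew u y n‖ ≤ Real.exp (3 * u / 2 + 9 / 4) * (1 / (n : ℝ) ^ 2) := by
  unfold Ew
  have h1 : ‖cexp (-(I * y * Real.log n))‖ = 1 := by
    have h : (-(I * y * Real.log n) : ℂ) = ((-(y * Real.log n) : ℝ) : ℂ) * I := by
      push_cast
      ring
    rw [h, Complex.norm_exp_ofReal_mul_I]
  rw [norm_mul, h1, mul_one, Complex.norm_real, Real.norm_of_nonneg (by positivity)]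
  rcases Nat.eq_zero_or_pos n with hn | hn
  · subst hn
    simp
  · have hn' : (0 : ℝ) < n := by exact_mod_cast hn
    have h2 : Real.sqrt n = Real.exp (Real.log n / 2) := by
      rw [Real.exp_half, Real.exp_log hn']
    have h3 : (n : ℝ) ^ 2 = Real.exp (2 * Real.log n) := by
      rw [mul_comm, Real.exp_mul, Real.exp_log hn']
      norm_cast
    rw [h2, h3, ← Real.exp_sub, one_div, ← Real.exp_neg, ← Real.exp_add]
    apply Real.exp_le_exp.2
    nlinarith [sq_nonneg ((u - Real.log n) / 2 + 3 / 2)]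

theorem Ew_summable (u y : ℝ) : Summable fun n : ℕ => ‖Ew u y n‖ := by
  refine Summable.of_nonneg_of_le (fun n => norm_nonneg _) (Ew_bound u y) ?_
  exact (Real.summable_one_div_nat_pow.2 (by norm_num)).mul_left _

theorem Ew_ee_summable (u y φ : ℝ) : Summable fun n : ℕ => Ew u y n * ee (n * φ) := by
  refine Summable.of_norm ?_
  simp_rw [norm_mul, eenorm, mul_one]
  exact Ew_summable u y

theorem gg_eq (R n : ℕ) : (gg R n : ℂ) = ∑ d ∈ SQ R, ((lam R d : ℝ) : ℂ) / d *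
    ∑ j ∈ Finset.range d, ee (n * ((j : ℝ) / d)) := by
  unfold gg
  rw [Finset.sum_filter]
  push_cast
  refine Finset.sum_congr rfl fun d hd => ?_
  have hd0 : 0 < d := (mem_SQ.1 hd).1.1
  have hd' : (d : ℂ) ≠ 0 := by exact_mod_cast hd0.ne'
  rw [detect n d hd0]
  split_ifs with h
  · rw [div_mul_cancel₀ _ hd']
  · rw [mul_zero]
    simp

theorem main_eq (R : ℕ) (u y φ : ℝ) :
    ∑' n : ℕ, (gg R n : ℂ) * (Ew u y n * ee (n * φ)) =
      ∑ d ∈ SQ R, ((lam R d : ℝ) : ℂ) / d * ∑ j ∈ Finset.range d,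
        ∑' n : ℕ, Ew u y n * ee (n * (φ + (j : ℝ) / d)) := by
  have h1 : ∀ n : ℕ, (gg R n : ℂ) * (Ew u y n * ee (n * φ)) =
      ∑ d ∈ SQ R, ((lam R d : ℝ) : ℂ) / d * ∑ j ∈ Finset.range d,
        Ew u y n * ee (n * (φ + (j : ℝ) / d)) := by
    intro n
    rw [gg_eq, Finset.sum_mul]
    refine Finset.sum_congr rfl fun d _ => ?_
    rw [mul_assoc, Finset.sum_mul]
    congr 1
    refine Finset.sum_congr rfl fun j _ => ?_
    rw [mul_add, eeadd]
    ring
  simp_rw [h1]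
  rw [Summable.tsum_finsetSum]
  · refine Finset.sum_congr rfl fun d _ => ?_
    rw [tsum_mul_left, Summable.tsum_finsetSum]
    intro j _
    exact Ew_ee_summable u y _
  · intro d _
    refine Summable.mul_left _ ?_
    exact summable_sum fun j _ => Ew_ee_summable u y _

theorem neg_main (h : S_exp) : S_neg := by
  intro k hk
  obtain ⟨C, hC, hE⟩ := h k hk
  refine ⟨C, hC, fun R q b u y hu hR hRq hcop => ?_⟩
  rw [main_eq, Finset.mul_sum]
  refine (norm_sum_le _ _).trans (Finset.sum_le_sum fun d hd => ?_)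
  obtain ⟨⟨hd1, hdR⟩, -⟩ := mem_SQ.1 hd
  have hd0 : (0 : ℝ) < d := by exact_mod_cast hd1
  have hq0 : 0 < q := by omega
  have hq0' : (0 : ℝ) < q := by exact_mod_cast hq0
  set X : ℝ := C * (1 + |y|) ^ k * ((q : ℝ) * R) ^ k * Real.exp (-((k : ℝ) - 1) * u) with hX
  have key : ∀ j ∈ Finset.range d,
      ‖∑' n : ℕ, Ew u y n * ee (n * ((b : ℝ) / q + (j : ℝ) / d))‖ ≤ X := by
    intro j _
    have e1 : (b : ℝ) / q + (j : ℝ) / d = ((b * d + j * q : ℕ) : ℝ) / ((q * d : ℕ) : ℝ) := by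
      push_cast
      field_simp
    have hM : 0 < q * d := Nat.mul_pos hq0 hd1
    have hne : ee (((b * d + j * q : ℕ) : ℝ) / ((q * d : ℕ) : ℝ)) ≠ 1 := by
      intro h1
      have h2 := dvd_of_ee hM h1
      have h3 : q ∣ b * d := by
        have h4 : q ∣ b * d + j * q := (Dvd.intro _ rfl).trans h2
        exact (Nat.dvd_add_left (dvd_mul_left q j)).1 h4
      have h5 : q ∣ d := hcop.symm.dvd_of_dvd_mul_left h3
      have h6 := Nat.le_of_dvd hd1 h5
      omega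
    have hlow := root_lower hM (eenorm _) (ee_pow (b * d + j * q) (q * d) hM) hne
    rw [e1]
    refine (hE u y _ hu hne).trans ?_
    set z := ee (((b * d + j * q : ℕ) : ℝ) / ((q * d : ℕ) : ℝ)) with hz
    have hpos : 0 < ‖1 - z‖ := lt_of_lt_of_le (by positivity) hlow
    have h7 : 1 ≤ ((q : ℝ) * R) * ‖1 - z‖ := by
      have h8 : 1 / (((q * d : ℕ) : ℝ)) ≤ ‖1 - z‖ := hlow
      rw [div_le_iff₀ (by exact_mod_cast hM)] at h8
      have h9 : (((q * d : ℕ) : ℝ)) ≤ (q : ℝ) * R := by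
        push_cast
        exact mul_le_mul_of_nonneg_left (by exact_mod_cast hdR) hq0'.le
      calc (1 : ℝ) ≤ ‖1 - z‖ * (((q * d : ℕ) : ℝ)) := h8
        _ ≤ ‖1 - z‖ * ((q : ℝ) * R) := mul_le_mul_of_nonneg_left h9 hpos.le
        _ = _ := mul_comm _ _
    rw [div_le_iff₀ (pow_pos hpos k), hX]
    have h10 : 1 ≤ (((q : ℝ) * R) * ‖1 - z‖) ^ k := one_le_pow₀ h7
    rw [mul_pow] at h10
    have h11 : 0 ≤ C * (1 + |y|) ^ k * Real.exp (-((k : ℝ) - 1) * u) := by positivity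
    calc C * (1 + |y|) ^ k * Real.exp (-((k : ℝ) - 1) * u)
        = (C * (1 + |y|) ^ k * Real.exp (-((k : ℝ) - 1) * u)) * 1 := (mul_one _).symm
      _ ≤ (C * (1 + |y|) ^ k * Real.exp (-((k : ℝ) - 1) * u)) *
          (((q : ℝ) * R) ^ k * ‖1 - z‖ ^ k) := mul_le_mul_of_nonneg_left h10 h11
      _ = _ := by ring
  rw [norm_mul, norm_div, Complex.norm_real, Real.norm_eq_abs, Complex.norm_natCast]
  have h12 : ‖∑ j ∈ Finset.range d, ∑' n : ℕ, Ew u y n * ee (n * ((b : ℝ) / q + (j : ℝ) / d))‖ ≤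
      d * X := by
    refine (norm_sum_le _ _).trans ((Finset.sum_le_sum key).trans ?_)
    rw [Finset.sum_const, Finset.card_range, nsmul_eq_mul]
  calc |lam R d| / d *
        ‖∑ j ∈ Finset.range d, ∑' n : ℕ, Ew u y n * ee (n * ((b : ℝ) / q + (j : ℝ) / d))‖
      ≤ |lam R d| / d * (d * X) := mul_le_mul_of_nonneg_left h12 (by positivity)
    _ = X * |lam R d| := by
        field_simp

end Pool.Agent.H551.OZ
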