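import Mathlib
import Pool.Graph.R_seed8.Helper540.Holo

/-!
Complex differentiable functions on open subsets of a finite dimensional space are analytic.
-/

set_option autoImplicit false

open Metric Set Filter Topology

namespace Pool.Agent.H551.ScAn

variable {E F : Type*} [NormedAddCommGroup E] [NormedSpace ℂ E] [FiniteDimensional ℂ E]
  [NormedAddCommGroup F] [NormedSpace ℂ F] [CompleteSpace F]

/-- differentiability of the iterated derivatives -/
theorem diff_iter {f : E → F} {s : Set E} (hs : IsOpen s) (hf : DifferentiableOn ℂ f s) (m : ℕ)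
    {x : E} (hx : x ∈ s) : DifferentiableAt ℂ (iteratedFDeriv ℂ m f) x := by
  have h1 := Pool.Agent.Helper540.contDiffOn_of_differentiableOn hs hf (m + 1)
  have h2 : ContDiffAt ℂ ((m + 1 : ℕ) : WithTop ℕ∞) f x := h1.contDiffAt (hs.mem_nhds hx)
  exact h2.differentiableAt_iteratedFDeriv (by exact_mod_cast Nat.lt_succ_self m)

/-- Cauchy's estimates for the iterated derivatives -/
theorem norm_iter_le {f : E → F} {a : E} {R δ M : ℝ} (hδ : 0 < δ)
    (hf : DifferentiableOn ℂ f (ball a R)) (hM : ∀ z ∈ ball a R, ‖f z‖ ≤ M) (m : ℕ) :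
    ∀ x ∈ ball a (R - m * δ), ‖iteratedFDeriv ℂ m f x‖ ≤ M * (2 / δ) ^ m := by
  induction m with
  | zero =>
    intro x hx
    rw [norm_iteratedFDeriv_zero, pow_zero, mul_one]
    apply hM
    simpa using hx
  | succ m ih =>
    intro x hx
    rw [← norm_fderiv_iteratedFDeriv]
    have hsub : ball x δ ⊆ ball a (R - m * δ) := by
      intro y hy
      rw [mem_ball] at *
      have h1 := dist_triangle y x a
      push_cast at hx
      nlinarith
    have hsub2 : ball a (R - m * δ) ⊆ ball a R :=
      ball_subset_ball (by have : (0 : ℝ) ≤ m * δ := by positivity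
                           linarith)
    have hd : DifferentiableOn ℂ (iteratedFDeriv ℂ m f) (ball x δ) := fun y hy =>
      (diff_iter isOpen_ball hf m (hsub2 (hsub hy))).differentiableWithinAt
    have hmaps : MapsTo (iteratedFDeriv ℂ m f) (ball x δ)
        (closedBall (iteratedFDeriv ℂ m f x) (2 * (M * (2 / δ) ^ m))) := by
      intro y hy
      rw [mem_closedBall, dist_eq_norm]
      have h1 := ih y (hsub hy)
      have h2 := ih x (hsub (mem_ball_self hδ))
      have h3 := norm_sub_le (iteratedFDeriv ℂ m f y) (iteratedFDeriv ℂ m f x)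
      linarith
    have h4 := Complex.norm_fderiv_le_div_of_mapsTo_ball hd hmaps hδ
    refine h4.trans (le_of_eq ?_)
    rw [pow_succ]
    field_simp

/-- the derivatives along a line -/
theorem iter_line {f : E → F} {a v : E} {R : ℝ} (hf : DifferentiableOn ℂ f (ball a R)) (m : ℕ) :
    ∀ t : ℂ, a + t • v ∈ ball a R → iteratedDeriv m (fun s : ℂ => f (a + s • v)) t =
      iteratedFDeriv ℂ m f (a + t • v) (fun _ => v) := by
  induction m with
  | zero =>
    intro t ht
    simp
  | succ m ih =>
    intro t ht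
    rw [iteratedDeriv_succ]
    have hc : Continuous fun s : ℂ => a + s • v := by fun_prop
    have hev : (iteratedDeriv m fun s : ℂ => f (a + s • v)) =ᶠ[𝓝 t]
        fun s => iteratedFDeriv ℂ m f (a + s • v) (fun _ => v) := by
      filter_upwards [(isOpen_ball.preimage hc).mem_nhds ht] with s hs
      exact ih s hs
    rw [hev.deriv_eq]
    have h1 : HasFDerivAt (iteratedFDeriv ℂ m f) (fderiv ℂ (iteratedFDeriv ℂ m f) (a + t • v))
        (a + t • v) := (diff_iter isOpen_ball hf m ht).hasFDerivAt
    have h2 : HasDerivAt (fun s : ℂ => a + s • v) v t := by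
      have := ((hasDerivAt_id t).smul_const v).const_add a
      simpa using this
    have h3 : HasDerivAt (fun s : ℂ => iteratedFDeriv ℂ m f (a + s • v))
        (fderiv ℂ (iteratedFDeriv ℂ m f) (a + t • v) v) t := h1.comp_hasDerivAt t h2
    have h4 := (ContinuousMultilinearMap.apply ℂ (fun _ : Fin m => E) F
      (fun _ => v)).hasFDerivAt.comp_hasDerivAt t h3
    have h5 : HasDerivAt (fun s : ℂ => iteratedFDeriv ℂ m f (a + s • v) (fun _ => v))
        (fderiv ℂ (iteratedFDeriv ℂ m f) (a + t • v) v (fun _ => v)) t := h4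
    rw [h5.deriv, iteratedFDeriv_succ_apply_left]
    rfl

/-- Osgood's lemma: a function on an open subset of a finite dimensional complex vector space, which
is complex differentiable, is analytic. -/
theorem analyticAt_ball {f : E → F} {a : E} {R : ℝ} (hR : 0 < R)
    (hf : DifferentiableOn ℂ f (ball a R)) : AnalyticAt ℂ f a := by
  obtain ⟨r, hr, M, hM0, hsub, hM⟩ :=
    Pool.Agent.Helper540.exists_bound isOpen_ball hf (mem_ball_self hR)
  have hf' : DifferentiableOn ℂ f (ball a r) := hf.mono hsub
  clear hf hsub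
  set ρ : ℝ := r / (2 * Real.exp 1) with hρ
  have he : (0 : ℝ) < Real.exp 1 := Real.exp_pos 1
  have hρ0 : 0 < ρ := by positivity
  have hρr : ρ < r := by
    rw [hρ, div_lt_iff₀ (by positivity)]
    have : 1 < Real.exp 1 := by
      rw [Real.one_lt_exp_iff]
      norm_num
    nlinarith
  -- the bounds
  have hbd : ∀ m : ℕ, ‖iteratedFDeriv ℂ m f a‖ ≤ M * (2 * (m + 1) / r) ^ m := by
    intro m
    have hm : (0 : ℝ) < (m : ℝ) + 1 := by positivity
    have h1 := norm_iter_le (δ := r / (m + 1)) (by positivity) hf' hM m a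
      (mem_ball_self (by
        have : (m : ℝ) * (r / (m + 1)) < r := by
          rw [mul_div_assoc', div_lt_iff₀ hm]
          nlinarith
        linarith))
    refine h1.trans (le_of_eq ?_)
    congr 2
    field_simp
  let p : FormalMultilinearSeries ℂ E F := fun m =>
    ((m.factorial : ℂ)⁻¹) • iteratedFDeriv ℂ m f a
  have hp : ∀ m, ‖p m‖ * ρ ^ m ≤ M * Real.exp 1 := by
    intro m
    have hfac : (0 : ℝ) < (m.factorial : ℝ) := by exact_mod_cast m.factorial_pos
    have h1 : ‖p m‖ = (m.factorial : ℝ)⁻¹ * ‖iteratedFDeriv ℂ m f a‖ := by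
      change ‖((m.factorial : ℂ)⁻¹) • iteratedFDeriv ℂ m f a‖ = _
      rw [norm_smul, norm_inv, Complex.norm_natCast]
    have hm : (0 : ℝ) ≤ (m : ℝ) + 1 := by positivity
    have h2 : ((m : ℝ) + 1) ^ m / m.factorial ≤ Real.exp ((m : ℝ) + 1) :=
      Real.pow_div_factorial_le_exp _ hm m
    have h3 : Real.exp ((m : ℝ) + 1) = Real.exp 1 ^ m * Real.exp 1 := by
      rw [Real.exp_add, ← Real.exp_nat_mul, mul_one]
    rw [h1]
    calc (m.factorial : ℝ)⁻¹ * ‖iteratedFDeriv ℂ m f a‖ * ρ ^ m
        ≤ (m.factorial : ℝ)⁻¹ * (M * (2 * (m + 1) / r) ^ m) * ρ ^ m := by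
          gcongr
          exact hbd m
      _ = M * (((m : ℝ) + 1) ^ m / m.factorial) * (1 / Real.exp 1) ^ m := by
          have : (2 * ((m : ℝ) + 1) / r) ^ m * ρ ^ m = ((m : ℝ) + 1) ^ m * (1 / Real.exp 1) ^ m := by
            rw [← mul_pow, ← mul_pow]
            congr 1
            rw [hρ]
            field_simp
          calc (m.factorial : ℝ)⁻¹ * (M * (2 * (m + 1) / r) ^ m) * ρ ^ m
              = (m.factorial : ℝ)⁻¹ * M * ((2 * ((m : ℝ) + 1) / r) ^ m * ρ ^ m) := by ring
            _ = _ := by rw [this]; ring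
      _ ≤ M * (Real.exp 1 ^ m * Real.exp 1) * (1 / Real.exp 1) ^ m := by
          rw [← h3]
          gcongr
      _ = M * Real.exp 1 := by
          rw [div_pow, one_pow]
          field_simp
  refine ⟨p, ENNReal.ofReal ρ, ?_⟩
  refine ⟨?_, ?_, ?_⟩
  · have h1 := p.le_radius_of_bound (r := ⟨ρ, hρ0.le⟩) (M * Real.exp 1) (fun n => hp n)
    rw [ENNReal.ofReal_eq_coe_nnreal hρ0.le]
    exact h1
  · exact ENNReal.ofReal_pos.2 hρ0
  · intro y hy
    have hy1 : ‖y‖ < r := by
      have h1 : dist y 0 < ρ := by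
        rw [Metric.mem_eball, edist_dist] at hy
        exact (ENNReal.ofReal_lt_ofReal_iff hρ0).1 hy
      rw [dist_zero_right] at h1
      linarith
    -- the line
    obtain ⟨s, hs1, hs2⟩ : ∃ s : ℝ, 1 < s ∧ s * ‖y‖ < r := by
      rcases eq_or_lt_of_le (norm_nonneg y) with h | h
      · exact ⟨2, by norm_num, by rw [← h]; simpa using hr⟩
      · refine ⟨(1 + r / ‖y‖) / 2, ?_, ?_⟩
        · have : 1 < r / ‖y‖ := by rwa [one_lt_div h]
          linarith
        · have : (1 + r / ‖y‖) / 2 * ‖y‖ = (‖y‖ + r) / 2 := by field_simp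
          rw [this]
          linarith
    have hline : ∀ t ∈ ball (0 : ℂ) s, a + t • y ∈ ball a r := by
      intro t ht
      rw [mem_ball, dist_eq_norm, add_sub_cancel_left, norm_smul]
      rw [mem_ball, dist_zero_right] at ht
      exact lt_of_le_of_lt (by gcongr) hs2
    have hφ : DifferentiableOn ℂ (fun t : ℂ => f (a + t • y)) (ball 0 s) := by
      intro t ht
      have h1 : DifferentiableAt ℂ f (a + t • y) :=
        hf'.differentiableAt (isOpen_ball.mem_nhds (hline t ht))
      have h2 : DifferentiableAt ℂ (fun t : ℂ => a + t • y) t := by fun_prop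
      exact (DifferentiableAt.comp t h1 h2).differentiableWithinAt
    have hsum := Complex.hasSum_taylorSeries_on_ball hφ (z := 1) (by simpa using hs1)
    have h0 : a + (0 : ℂ) • y ∈ ball a r := by simpa using hr
    simp only [sub_zero, one_pow, one_smul] at hsum
    have heq : ∀ n : ℕ, ((n.factorial : ℂ)⁻¹ • iteratedDeriv n (fun t : ℂ => f (a + t • y)) 0) =
        p n fun _ => y := by
      intro n
      rw [iter_line hf' n 0 h0, zero_smul, add_zero]
      rfl
    simpa only [heq] using hsum

/-- Osgood's lemma. -/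
theorem analyticAt_of_eventually {f : E → F} {a : E} (hf : ∀ᶠ z in 𝓝 a, DifferentiableAt ℂ f z) :
    AnalyticAt ℂ f a := by
  obtain ⟨R, hR, h⟩ := Metric.eventually_nhds_iff_ball.1 hf
  exact analyticAt_ball hR fun z hz => (h z hz).differentiableWithinAt

end Pool.Agent.H551.ScAn
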